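import Pool.Agent.H731Z.Ex.Gen

/-! No invariant strict order on tuples of the generic structure has an infinite chain. -/

set_option linter.unusedSectionVars false

namespace Pool.Agent.H731Z.Ex.Sp

open Finset

variable {U : Type} [DecidableEq U]

lemma ori_join {S : Str U} {C X Y D : Finset U} {ρ τ : U → U → Prop} (hf : Free S X Y)
    (hC : X ∩ Y = C) (h1 : Ori S C X ρ) (h2 : Ori S (X ∪ Y) D τ) (hD : X ∪ Y ⊆ D) :
    Ori S Y D fun a b => ρ a b ∨ τ a b := by
  refine ⟨?_, ?_, ?_⟩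
  · rintro a b (h | h)
    · obtain ⟨a1, a2, a3⟩ := h1.src a b h
      exact ⟨hD (mem_union_left _ a1), fun hh => a2 (hC ▸ mem_inter.2 ⟨a1, hh⟩),
        hD (mem_union_left _ a3)⟩
    · obtain ⟨a1, a2, a3⟩ := h2.src a b h
      exact ⟨a1, fun hh => a2 (mem_union_right _ hh), a3⟩
  · intro a ha b hb hE hn
    by_cases hab : a ∈ X ∪ Y ∧ b ∈ X ∪ Y
    · have h3 := (hf a hab.1 b hab.2 hE).resolve_right hn
      rcases h1.cov a h3.1 b h3.2 hE (fun hh => hn ⟨(mem_inter.1 (hC ▸ hh.1 : a ∈ X ∩ Y)).2,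
        (mem_inter.1 (hC ▸ hh.2 : b ∈ X ∩ Y)).2⟩) with h | h
      · exact Or.inl (Or.inl h)
      · exact Or.inr (Or.inl h)
    · rcases h2.cov a ha b hb hE hab with h | h
      · exact Or.inl (Or.inr h)
      · exact Or.inr (Or.inr h)
  · intro a f hf' hτ
    by_cases ha : a ∈ X
    · exact h1.deg a f hf' fun i => (hτ i).resolve_right fun hh =>
        (h2.src _ _ hh).2.1 (mem_union_left _ ha)
    · exact h2.deg a f hf' fun i => (hτ i).resolve_left fun hh => ha (h1.src _ _ hh).1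

lemma Free.symm {S : Str U} {X Y : Finset U} (h : Free S X Y) : Free S Y X := by
  intro a ha b hb hE
  rw [union_comm] at ha hb
  exact (h a ha b hb hE).symm

lemma δ_low {S : Str U} {C X Y D Z : Finset U} (hf : Free S X Y) (hC : X ∩ Y = C)
    (hw : WCl S (X ∪ Y) D) (hD : X ∪ Y ⊆ D) (h1 : X ⊆ Z) (h2 : Z ⊆ D) :
    S.δ X + S.δ (Z ∩ Y) ≤ S.δ Z + S.δ C := by
  have a1 := hw.inter_le hD h2
  have e1 : Z ∩ (X ∪ Y) = X ∪ Z ∩ Y := by
    ext a
    have := @h1 a
    simp only [mem_inter, mem_union]; tauto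
  have e2 : X ∩ (Z ∩ Y) = C := by
    rw [← hC]
    ext a
    have := @h1 a
    simp only [mem_inter]; tauto
  have f2 : Free S X (Z ∩ Y) := by
    intro a ha b hb hE
    rw [← e1] at ha hb
    rcases hf a (mem_inter.1 ha).2 b (mem_inter.1 hb).2 hE with h | h
    · exact Or.inl h
    · exact Or.inr ⟨mem_inter.2 ⟨(mem_inter.1 ha).1, h.1⟩, mem_inter.2 ⟨(mem_inter.1 hb).1, h.2⟩⟩
  have a2 := δ_free f2
  rw [e2] at a2
  rw [e1] at a1
  omega

lemma iso_of_invol {S : Str U} {s : U → U} {Z : Finset U} (h1 : ∀ a ∈ Z, s a ∈ Z)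
    (h2 : ∀ a ∈ Z, s (s a) = a) (hE : ∀ a ∈ Z, ∀ b ∈ Z, S.E a b → S.E (s a) (s b))
    (hJ : ∀ a ∈ Z, ∀ b ∈ Z, S.J a b → S.J (s a) (s b))
    (hR : ∀ x ∈ Z, ∀ a ∈ Z, ∀ b ∈ Z, S.R x a b → S.R (s x) (s a) (s b)) : Iso S S s Z := by
  refine ⟨fun a ha b hb e => by rw [← h2 a ha, e, h2 b hb], fun a ha b hb => ⟨fun h => ?_, hE a ha b hb⟩,
    fun a ha b hb => ⟨fun h => ?_, hJ a ha b hb⟩,
    fun x hx a ha b hb => ⟨fun h => ?_, hR x hx a ha b hb⟩⟩
  · have := hE _ (h1 a ha) _ (h1 b hb) h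
    rwa [h2 a ha, h2 b hb] at this
  · have := hJ _ (h1 a ha) _ (h1 b hb) h
    rwa [h2 a ha, h2 b hb] at this
  · have := hR _ (h1 x hx) _ (h1 a ha) _ (h1 b hb) h
    rwa [h2 a ha, h2 b hb, h2 x hx] at this

variable {M : Str ℕ}

theorem Gen.swap (hM : Gen M) {C c0 : Finset ℕ} {g : ℕ ≃ ℕ} (hC : Closed M C) (h0 : Closed M c0)
    (hC0 : C ⊆ c0) (hg : IsAut M g) (hgC : ∀ a ∈ C, g a = a)
    (hind : ∀ Y, c0 ∪ c0.image g ⊆ Y → 2 * M.δ c0 ≤ M.δ Y + M.δ C) :
    ∃ π σ : ℕ ≃ ℕ, IsAut M π ∧ IsAut M σ ∧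
      ∀ a ∈ c0, π a = g a ∧ σ a = π (g a) ∧ σ (π (g a)) = a := by
  set c1 := c0.image g with hc1
  have d1 : M.δ c1 = M.δ c0 := (hg.iso c0).δ Subset.rfl
  have h1 : Closed M c1 := hg.closed h0
  have hC1 : C ⊆ c1 := fun a ha => mem_image.2 ⟨a, hC0 ha, hgC a ha⟩
  have s1 := δ_submod M c0 c1
  have s2 := hind _ Subset.rfl
  have hint : c0 ∩ c1 = C := by
    by_contra hne
    have := hC _ (subset_inter hC0 hC1) hne
    omega
  have hfree : Free M c0 c1 := free_of_δ (by rw [hint]; omega)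
  have s3 := δ_free hfree
  rw [hint] at s3
  obtain ⟨D, hD, hDc, -⟩ := hM.exists_closure (c0 ∪ c1)
  have hw : WCl M (c0 ∪ c1) D := fun Y y1 _ => by have := hind Y y1; omega
  have h0D : c0 ⊆ D := subset_union_left.trans hD
  have h1D : c1 ⊆ D := subset_union_right.trans hD
  have hgD : ∀ a ∈ c0, g a ∈ D := fun a ha => h1D (mem_image_of_mem g ha)
  obtain ⟨ρ, hρ⟩ := exists_ori hC0 (hC.cl c0).wcl
  obtain ⟨τ, hτ⟩ := exists_ori hD hw
  have o1 := ori_join hfree hint hρ hτ hD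
  have hρ' := hρ.push hC0 (hg.iso c0)
  have eC : C.image g = C := (image_congr fun a ha => hgC a ha).trans image_id
  rw [eC] at hρ'
  have o0 := ori_join hfree.symm (by rw [inter_comm, hint]) hρ' (by rwa [union_comm])
    (by rwa [union_comm])
  obtain ⟨h, hh1, hh2, hh3⟩ := exists_fresh D c0 g D (hg.iso c0).inj hgD
  have e1 : c0.image h = c1 := image_congr fun a ha => hh2 a ha
  have hI := inter_fresh h0D hgD hh2 hh3
  have pr := prob_of (hM.good D) (hM.good D) h0D hh1 hI ((hg.iso c0).congr hh2)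
    (e1 ▸ h1.cl D) (h0.cl D) (e1 ▸ o1) o0
  rw [e1] at hI
  set S := amal M (M.push h D) D (D.image h) _ _ with hS
  have ip : Iso M S h D := (iso_push M hh1).comp pr.iso2 fun a ha => mem_image_of_mem h ha
  obtain ⟨j, j1, j2, j3⟩ := hM.ext (B := S) (W := D ∪ D.image h) (A := D) (g := id)
    subset_union_left pr.good pr.cl_left pr.iso1.symm_id (by simpa using hDc)
  have iπ : Iso M M (j ∘ h) D := ip.comp j1 fun a ha => mem_union_right _ (mem_image_of_mem h ha)
  have cπ : Closed M (D.image (j ∘ h)) := by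
    rw [← image_image]
    exact Closed.of_cl (j1.cl subset_union_right pr.cl_right)
      (image_subset_image subset_union_right) j3
  obtain ⟨π, π1, π2⟩ := hM.hom (Iso.refl M D) iπ (by simpa using hDc) cπ
  -- the second copy of `c0`
  let k : ℕ → ℕ := fun a => h (g a)
  have ik : Iso M S k c0 := (hg.iso c0).comp ip hgD
  have k1 : ∀ a ∈ C, k a = a := fun a ha => by
    simp only [k]
    rw [hgC a ha, hh2 a (hC0 ha), hgC a ha]
  have k2 : ∀ a ∈ c0, k a ∈ D → a ∈ C := fun a ha hk => by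
    have b1 : g a ∈ C := hint ▸ mem_inter.2 ⟨hh3 _ (hgD a ha) hk, mem_image_of_mem g ha⟩
    have b2 : g a = a := g.injective (hgC _ b1)
    rwa [b2] at b1
  have k3 : ∀ a ∈ c0, a ∈ D.image h → a ∈ C := fun a ha hk =>
    hint ▸ mem_inter.2 ⟨ha, hI ▸ mem_inter.2 ⟨h0D ha, hk⟩⟩
  have k4 : ∀ a ∈ c0, k a ∈ D.image h := fun a ha => mem_image_of_mem h (hgD a ha)
  obtain ⟨ki, hki⟩ := ik.exists_inv
  let s : ℕ → ℕ := fun u => if u ∈ c0 then k u else ki u
  have sa : ∀ a ∈ c0, s a = k a := fun a ha => if_pos ha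
  have sk : ∀ a ∈ c0, s (k a) = a := fun a ha => by
    by_cases hk : k a ∈ c0
    · have := k2 a ha (h0D hk)
      rw [k1 a this, sa a ha, k1 a this]
    · exact (if_neg hk).trans (hki a ha)
  let Z := c0 ∪ c0.image k
  have z1 : ∀ a ∈ Z, a ∈ D → a ∈ c0 := by
    intro a ha haD
    rcases mem_union.1 ha with hh | hh
    · exact hh
    · obtain ⟨a', ha', rfl⟩ := mem_image.1 hh
      have := k2 a' ha' haD
      rw [k1 a' this]; exact ha'
  have z2 : ∀ a ∈ Z, a ∈ D.image h → ∃ a' ∈ c0, k a' = a := by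
    intro a ha haD
    rcases mem_union.1 ha with hh | hh
    · exact ⟨a, hh, k1 a (k3 a hh haD)⟩
    · exact mem_image.1 hh
  have z3 : ∀ a ∈ Z, s a ∈ Z ∧ s (s a) = a := by
    intro a ha
    rcases mem_union.1 ha with hh | hh
    · rw [sa a hh, sk a hh]
      exact ⟨mem_union_right _ (mem_image_of_mem k hh), rfl⟩
    · obtain ⟨a', ha', rfl⟩ := mem_image.1 hh
      rw [sk a' ha', sa a' ha']
      exact ⟨mem_union_left _ ha', rfl⟩
  have is : Iso S S s Z := by
    refine iso_of_invol (fun a ha => (z3 a ha).1) (fun a ha => (z3 a ha).2) ?_ ?_ ?_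
    · rintro a ha b hb (hh | hh)
      · rw [sa a (z1 a ha hh.1), sa b (z1 b hb hh.2.1)]
        exact (ik.E a (z1 a ha hh.1) b (z1 b hb hh.2.1)).2 hh.2.2
      · obtain ⟨a', ha', rfl⟩ := z2 a ha hh.1
        obtain ⟨b', hb', rfl⟩ := z2 b hb hh.2.1
        rw [sk a' ha', sk b' hb']
        exact Or.inl ⟨h0D ha', h0D hb', (ik.E a' ha' b' hb').1 (Or.inr hh)⟩
    · rintro a ha b hb (hh | hh)
      · rw [sa a (z1 a ha hh.1), sa b (z1 b hb hh.2.1)]
        exact (ik.J a (z1 a ha hh.1) b (z1 b hb hh.2.1)).2 hh.2.2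
      · obtain ⟨a', ha', rfl⟩ := z2 a ha hh.1
        obtain ⟨b', hb', rfl⟩ := z2 b hb hh.2.1
        rw [sk a' ha', sk b' hb']
        exact Or.inl ⟨h0D ha', h0D hb', (ik.J a' ha' b' hb').1 (Or.inr hh)⟩
    · rintro x hx a ha b hb (hh | hh | hh | hh)
      · rw [sa x (z1 x hx hh.1), sa a (z1 a ha hh.2.1), sa b (z1 b hb hh.2.2.1)]
        exact (ik.R x (z1 x hx hh.1) a (z1 a ha hh.2.1) b (z1 b hb hh.2.2.1)).2 hh.2.2.2
      · obtain ⟨x', hx', rfl⟩ := z2 x hx hh.1
        obtain ⟨a', ha', rfl⟩ := z2 a ha hh.2.1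
        obtain ⟨b', hb', rfl⟩ := z2 b hb hh.2.2.1
        rw [sk x' hx', sk a' ha', sk b' hb']
        exact Or.inl ⟨h0D hx', h0D ha', h0D hb', (ik.R x' hx' a' ha' b' hb').1 (Or.inr (Or.inl hh))⟩
      · obtain ⟨hx1, hx2, a0, b0, hab, rfl, rfl⟩ := hh
        have ha0 := (o0.src _ _ hab).1
        obtain ⟨a', ha', e⟩ := z2 _ ha (mem_image_of_mem h ha0)
        have e' : g a' = a0 := hh1 _ (hgD a' ha') _ ha0 e
        rcases hab with ⟨a1, b1, hab, rfl, rfl⟩ | hab
        · obtain ⟨m1, -, m2⟩ := hρ.src _ _ hab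
          have hx0 := z1 x hx hx1
          rw [sa x hx0, show h (g a1) = k a1 from rfl, show h (g b1) = k b1 from rfl, sk a1 m1,
            sk b1 m2]
          refine Or.inr (Or.inr (Or.inr ⟨k4 x hx0, fun hh => hx2 ?_, Or.inl hab⟩))
          rw [← k1 x (k2 x hx0 hh)]
          exact k4 x hx0
        · exact absurd (mem_union_right _ (e' ▸ mem_image_of_mem g ha')) (hτ.src _ _ hab).2.1
      · obtain ⟨hx1, hx2, hab⟩ := hh
        obtain ⟨x', hx', rfl⟩ := z2 x hx hx1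
        rcases hab with hab | hab
        · obtain ⟨m1, -, m2⟩ := hρ.src _ _ hab
          rw [sk x' hx', sa a m1, sa b m2]
          refine Or.inr (Or.inr (Or.inl ⟨h0D hx', fun hh => hx2 ?_, g a, g b,
            Or.inl ⟨a, b, hab, rfl, rfl⟩, rfl, rfl⟩))
          rw [k1 x' (k3 x' hx' hh)]
          exact h0D hx'
        · have := hτ.src _ _ hab
          exact absurd (mem_union_left _ (z1 a ha this.1)) this.2.1
  have eZ : Z.image s = Z := by
    ext a
    constructor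
    · intro ha
      obtain ⟨b, hb, rfl⟩ := mem_image.1 ha
      exact (z3 b hb).1
    · intro ha
      exact mem_image.2 ⟨s a, (z3 a ha).1, (z3 a ha).2⟩
  have hZW : Z ⊆ D ∪ D.image h := union_subset_union h0D fun a ha => by
    obtain ⟨b, hb, rfl⟩ := mem_image.1 ha
    exact k4 b hb
  have ek : c0.image k = c1.image h := by rw [hc1, image_image]; rfl
  have ip2 := iso_push M hh1
  have cZ : Cl S Z (D ∪ D.image h) := by
    intro Y y1 y2 y3
    have a1 := pr.δ hZW
    have a2 := pr.δ y2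
    rw [hI] at a1 a2
    have b1 : Z ∩ c1 = C := by
      refine Subset.antisymm (fun a ha => ?_) (subset_inter (hC0.trans subset_union_left) hC1)
      have := mem_inter.1 ha
      exact hint ▸ mem_inter.2 ⟨z1 a this.1 (h1D this.2), this.2⟩
    have b2 : Z ∩ D = c0 := Subset.antisymm
      (fun a ha => z1 a (mem_inter.1 ha).1 (mem_inter.1 ha).2) (subset_inter subset_union_left h0D)
    have b3 : Z ∩ D.image h = c1.image h := by
      rw [← ek]
      refine Subset.antisymm (fun a ha => mem_image.2 (z2 a (mem_inter.1 ha).1 (mem_inter.1 ha).2))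
        (subset_inter subset_union_right fun a ha => ?_)
      obtain ⟨b, hb, rfl⟩ := mem_image.1 ha
      exact k4 b hb
    rw [b1, b2, b3, ip2.δ h1D] at a1
    obtain ⟨X, x1, x2, x3⟩ := ip2.preimage h1D (Y := Y ∩ D.image h)
      (b3 ▸ inter_subset_inter_right y1) inter_subset_right
    rw [← x3, ip2.δ x2] at a2
    have b4 : (X ∩ c0).image g = Y ∩ c1 := by
      ext a
      constructor
      · intro ha
        obtain ⟨b, hb, rfl⟩ := mem_image.1 ha
        have hb' := mem_inter.1 hb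
        have : h b ∈ Y ∩ D.image h := x3 ▸ mem_image_of_mem h hb'.1
        rw [hh2 b hb'.2] at this
        exact mem_inter.2 ⟨(mem_inter.1 this).1, mem_image_of_mem g hb'.2⟩
      · intro ha
        obtain ⟨b, hb, rfl⟩ := mem_image.1 (mem_inter.1 ha).2
        have : h b ∈ X.image h := by
          rw [x3]
          refine mem_inter.2 ⟨?_, mem_image_of_mem h (h0D hb)⟩
          rw [hh2 b hb]; exact (mem_inter.1 ha).1
        obtain ⟨b', hb', e⟩ := mem_image.1 this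
        rw [hh1 _ (x2 hb') _ (h0D hb) e] at hb'
        exact mem_image_of_mem g (mem_inter.2 ⟨hb', hb⟩)
    have b5 : M.δ (Y ∩ c1) = M.δ (X ∩ c0) := b4 ▸ (hg.iso _).δ Subset.rfl
    have y0 : c0 ⊆ Y ∩ D := subset_inter (subset_union_left.trans y1) h0D
    have l1 := δ_low hfree hint hw hD y0 inter_subset_right
    have l2 := δ_low hfree.symm (by rw [inter_comm, hint]) (by rwa [union_comm])
      (by rwa [union_comm]) x1 x2
    have b6 : Y ∩ D ∩ c1 = Y ∩ c1 := by rw [inter_assoc, inter_eq_right.2 h1D]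
    rw [b6] at l1
    change S.δ Z + _ = _ at a1
    change S.δ Y + _ = _ at a2
    by_cases hT : Y ∩ c1 = C
    · rw [hT] at a2
      have l3 := h0.le y0
      have l4 := h1.le x1
      by_cases q1 : Y ∩ D = c0
      · by_cases q2 : X = c1
        · refine absurd (Subset.antisymm (fun a ha => ?_) y1) y3
          rcases mem_union.1 (y2 ha) with hh | hh
          · exact mem_union_left _ (q1 ▸ mem_inter.2 ⟨ha, hh⟩)
          · refine mem_union_right _ ?_
            rw [ek, ← q2, x3]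
            exact mem_inter.2 ⟨ha, hh⟩
        · have := h1 X x1 q2
          omega
      · have := h0 _ y0 q1
        omega
    · have := hC _ (subset_inter ((hC0.trans subset_union_left).trans y1) hC1) hT
      omega
  have cZ' : Closed M (Z.image j) :=
    Closed.of_cl (j1.cl hZW cZ) (image_subset_image hZW) j3
  obtain ⟨σ, σ1, σ2⟩ := hM.hom (j1.mono hZW) (is.comp j1 fun a ha => hZW (z3 a ha).1) cZ'
    (by rw [← image_image, eZ]; exact cZ')
  refine ⟨π, σ, π1, σ1, fun a ha => ?_⟩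
  have p1 : π (g a) = j (k a) := π2 _ (hgD a ha)
  refine ⟨?_, ?_, ?_⟩
  · have := π2 a (h0D ha)
    simp only [id, Function.comp_apply] at this
    rw [this, hh2 a ha, j2 _ (hgD a ha), id]
  · have := σ2 a (mem_union_left _ ha)
    rw [j2 a (h0D ha), id, Function.comp_apply, sa a ha] at this
    rw [this, p1]
  · have := σ2 (k a) (mem_union_right _ (mem_image_of_mem k ha))
    rw [Function.comp_apply, sk a ha, j2 a (h0D ha), id] at this
    rw [p1, this]

theorem Gen.no_chain (hM : Gen M) {β : Type} [Fintype β] (lt : (β → ℕ) → (β → ℕ) → Prop)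
    (htr : ∀ a b c, lt a b → lt b c → lt a c) (hir : ∀ a, ¬ lt a a)
    (hinv : ∀ σ : ℕ ≃ ℕ, IsAut M σ → ∀ a b, lt a b → lt (σ ∘ a) (σ ∘ b)) :
    ∀ (r : ℕ) (C : Finset ℕ), Closed M C → ∀ b : ℕ → β → ℕ, (∀ i j, i < j → lt (b i) (b j)) →
      (∀ i, ∃ Y, C ∪ univ.image (b i) ⊆ Y ∧ M.δ Y ≤ M.δ C + r) → False := by
  intro r
  induction r using Nat.strong_induction_on with
  | _ r ih =>
  intro C hC b hb hr
  obtain ⟨F, _, inv, hF⟩ := hM.orbits (C ⊕ β)
  obtain ⟨y, hy⟩ := Finite.exists_infinite_fiber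
    (fun i : ℕ => inv (Sum.elim (fun c : C => (c : ℕ)) (b i)))
  have hS : {i : ℕ | inv (Sum.elim (fun c : C => (c : ℕ)) (b i)) = y}.Infinite :=
    Set.infinite_coe_iff.1 hy
  let n := Nat.nth fun i => inv (Sum.elim (fun c : C => (c : ℕ)) (b i)) = y
  have n1 : StrictMono n := Nat.nth_strictMono hS
  have n2 : ∀ i, inv (Sum.elim (fun c : C => (c : ℕ)) (b (n i))) = y := Nat.nth_mem_of_infinite hS
  obtain ⟨c0, a1, a2, a3⟩ := hM.exists_closure (C ∪ univ.image (b (n 0)))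
  have hC0 : C ⊆ c0 := subset_union_left.trans a1
  have a4 : M.δ c0 ≤ M.δ C + r := by
    obtain ⟨Y, y1, y2⟩ := hr (n 0)
    exact (a3 Y y1).trans y2
  have a5 := hC.le hC0
  by_cases hcase : ∀ i, ∃ Y, c0 ∪ univ.image (b (n (i + 1))) ⊆ Y ∧ M.δ Y + M.δ C < 2 * M.δ c0
  · have hpos : M.δ C < M.δ c0 := by
      obtain ⟨Y, y1, y2⟩ := hcase 0
      have := a2.le (subset_union_left.trans y1)
      omega
    refine ih (M.δ c0 - M.δ C - 1).toNat (by omega) c0 a2 (fun i => b (n (i + 1)))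
      (fun i j hij => hb _ _ (n1 (by omega))) fun i => ?_
    obtain ⟨Y, y1, y2⟩ := hcase i
    exact ⟨Y, y1, by omega⟩
  · push Not at hcase
    obtain ⟨i, hi⟩ := hcase
    obtain ⟨g, g1, g2⟩ := hF _ _ ((n2 0).trans (n2 (i + 1)).symm)
    have hb0 : ∀ t, b (n 0) t ∈ c0 := fun t =>
      a1 (mem_union_right _ (mem_image_of_mem _ (mem_univ t)))
    have gb : g ∘ b (n 0) = b (n (i + 1)) := funext fun t => g2 (Sum.inr t)
    obtain ⟨π, σ, p1, p2, p3⟩ := hM.swap hC a2 hC0 g1 (fun a ha => g2 (Sum.inl ⟨a, ha⟩))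
      fun Y hY => hi Y (union_subset (subset_union_left.trans hY) fun a ha => by
        obtain ⟨t, -, rfl⟩ := mem_image.1 ha
        rw [← gb]
        exact hY (mem_union_right _ (mem_image_of_mem g (hb0 t))))
    have l1 : lt (b (n 0)) (b (n (i + 1))) := hb _ _ (n1 (by omega))
    have l2 := hinv π p1 _ _ l1
    have e1 : π ∘ b (n 0) = b (n (i + 1)) := by
      rw [← gb]; funext t; exact (p3 _ (hb0 t)).1
    rw [e1] at l2
    have l3 := htr _ _ _ l1 l2
    have l4 := hinv σ p2 _ _ l3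
    have e2 : σ ∘ b (n 0) = π ∘ b (n (i + 1)) := by
      rw [← gb]; funext t; exact (p3 _ (hb0 t)).2.1
    have e3 : σ ∘ π ∘ b (n (i + 1)) = b (n 0) := by
      rw [← gb]; funext t; exact (p3 _ (hb0 t)).2.2
    rw [e2, e3] at l4
    exact hir _ (htr _ _ _ l3 l4)

theorem Gen.no_chain' (hM : Gen M) {β : Type} [Fintype β] (lt : (β → ℕ) → (β → ℕ) → Prop)
    (htr : ∀ a b c, lt a b → lt b c → lt a c) (hir : ∀ a, ¬ lt a a)
    (hinv : ∀ σ : ℕ ≃ ℕ, IsAut M σ → ∀ a b, lt a b → lt (σ ∘ a) (σ ∘ b))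
    (b : ℕ → β → ℕ) (hb : ∀ i, lt (b i) (b (i + 1))) : False := by
  refine hM.no_chain lt htr hir hinv (4 * Fintype.card β) ∅
    (fun Y h1 h2 => (hM.good Y).cl_empty Y h1 Subset.rfl h2) b ?_ fun i => ⟨_, Subset.rfl, ?_⟩
  · intro i j hij
    induction j, hij using Nat.le_induction with
    | base => exact hb i
    | succ j _ ih => exact htr _ _ _ ih (hb j)
  · have c2 := δ_le M (∅ ∪ univ.image (b i))
    have c3 : (∅ ∪ univ.image (b i)).card ≤ Fintype.card β := by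
      rw [empty_union]; exact card_image_le
    rw [δ_empty]
    push_cast
    omega

end Pool.Agent.H731Z.Ex.Sp
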