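import Mathlib

/-! Sparse graphs with a family of orientations: predimension, closed sets, amalgamation. -/

set_option linter.unusedSectionVars false

namespace Pool.Agent.H731Z.Ex.Sp

open Finset

@[ext] structure Str (U : Type) where
  E : U → U → Prop
  J : U → U → Prop
  R : U → U → U → Prop

variable {U V : Type} [DecidableEq U] [DecidableEq V]

open Classical in
noncomputable def Str.edges (S : Str U) (X : Finset U) : Finset (U × U) :=
  (X ×ˢ X).filter fun p => S.E p.1 p.2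

lemma mem_edges {S : Str U} {X : Finset U} {p : U × U} :
    p ∈ S.edges X ↔ p.1 ∈ X ∧ p.2 ∈ X ∧ S.E p.1 p.2 := by
  simp [Str.edges, and_assoc]

noncomputable def Str.δ (S : Str U) (X : Finset U) : ℤ := 4 * X.card - (S.edges X).card

lemma δ_le (S : Str U) (X : Finset U) : S.δ X ≤ 4 * X.card := by
  unfold Str.δ; omega

lemma δ_empty (S : Str U) : S.δ ∅ = 0 := by
  have : S.edges ∅ = ∅ := by
    ext p; simp [mem_edges]
  simp [Str.δ, this]

lemma edges_inter (S : Str U) (X Y : Finset U) : S.edges (X ∩ Y) = S.edges X ∩ S.edges Y := by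
  ext p; simp only [mem_edges, mem_inter]; tauto

lemma edges_union_sub (S : Str U) (X Y : Finset U) : S.edges X ∪ S.edges Y ⊆ S.edges (X ∪ Y) := by
  intro p; simp only [mem_edges, mem_union]; tauto

lemma δ_formula (S : Str U) (X Y : Finset U) :
    S.δ (X ∪ Y) + S.δ (X ∩ Y) + (S.edges (X ∪ Y)).card =
      S.δ X + S.δ Y + (S.edges X ∪ S.edges Y).card := by
  have h1 := card_union_add_card_inter X Y
  have h2 := card_union_add_card_inter (S.edges X) (S.edges Y)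
  rw [← edges_inter] at h2
  unfold Str.δ
  omega

lemma δ_submod (S : Str U) (X Y : Finset U) : S.δ (X ∪ Y) + S.δ (X ∩ Y) ≤ S.δ X + S.δ Y := by
  have h1 := δ_formula S X Y
  have h2 := card_le_card (edges_union_sub S X Y)
  omega

/-- no edges across -/
def Free (S : Str U) (X Y : Finset U) : Prop :=
  ∀ a ∈ X ∪ Y, ∀ b ∈ X ∪ Y, S.E a b → (a ∈ X ∧ b ∈ X) ∨ (a ∈ Y ∧ b ∈ Y)

lemma δ_free {S : Str U} {X Y : Finset U} (h : Free S X Y) :
    S.δ (X ∪ Y) + S.δ (X ∩ Y) = S.δ X + S.δ Y := by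
  have h1 := δ_formula S X Y
  have h2 : S.edges (X ∪ Y) = S.edges X ∪ S.edges Y := by
    refine Subset.antisymm ?_ (edges_union_sub S X Y)
    intro p hp
    rw [mem_edges] at hp
    rcases h _ hp.1 _ hp.2.1 hp.2.2 with h | h
    · exact mem_union_left _ (mem_edges.2 ⟨h.1, h.2, hp.2.2⟩)
    · exact mem_union_right _ (mem_edges.2 ⟨h.1, h.2, hp.2.2⟩)
  rw [h2] at h1
  omega

lemma free_of_δ {S : Str U} {X Y : Finset U} (h : S.δ X + S.δ Y ≤ S.δ (X ∪ Y) + S.δ (X ∩ Y)) :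
    Free S X Y := by
  have h1 := δ_formula S X Y
  have h2 : S.edges X ∪ S.edges Y = S.edges (X ∪ Y) :=
    eq_of_subset_of_card_le (edges_union_sub S X Y) (by omega)
  intro a ha b hb hab
  have : (a, b) ∈ S.edges (X ∪ Y) := mem_edges.2 ⟨ha, hb, hab⟩
  rw [← h2, mem_union, mem_edges, mem_edges] at this
  tauto

def Cl (S : Str U) (A W : Finset U) : Prop := ∀ Y, A ⊆ Y → Y ⊆ W → Y ≠ A → S.δ A < S.δ Y
def WCl (S : Str U) (A W : Finset U) : Prop := ∀ Y, A ⊆ Y → Y ⊆ W → S.δ A ≤ S.δ Y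

lemma Cl.wcl {S : Str U} {A W : Finset U} (h : Cl S A W) : WCl S A W := by
  intro Y h1 h2
  by_cases h3 : Y = A
  · rw [h3]
  · exact (h Y h1 h2 h3).le

lemma Cl.mono {S : Str U} {A W W' : Finset U} (h : Cl S A W) (hW : W' ⊆ W) : Cl S A W' :=
  fun Y h1 h2 h3 => h Y h1 (h2.trans hW) h3

lemma WCl.inter_le {S : Str U} {A W X : Finset U} (h : WCl S A W) (hA : A ⊆ W) (hX : X ⊆ W) :
    S.δ (X ∩ A) ≤ S.δ X := by
  have h1 := δ_submod S X A
  have h2 := h (X ∪ A) subset_union_right (union_subset hX hA)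
  omega

lemma Cl.inter_lt {S : Str U} {A W X : Finset U} (h : Cl S A W) (hA : A ⊆ W) (hX : X ⊆ W)
    (hn : ¬ X ⊆ A) : S.δ (X ∩ A) < S.δ X := by
  have h1 := δ_submod S X A
  have h2 := h (X ∪ A) subset_union_right (union_subset hX hA)
    (fun e => hn (e ▸ subset_union_left))
  omega

lemma Cl.trans {S : Str U} {A B W : Finset U} (h1 : Cl S A B) (h2 : Cl S B W) (hAB : A ⊆ B)
    (hB : B ⊆ W) : Cl S A W := by
  intro Y hAY hY hne
  by_cases hYB : Y ⊆ B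
  · exact h1 Y hAY hYB hne
  · have a1 := h2.inter_lt hB hY hYB
    have a2 := h1.wcl (Y ∩ B) (subset_inter hAY hAB) inter_subset_right
    omega

lemma Cl.refl (S : Str U) (A : Finset U) : Cl S A A :=
  fun _ h1 h2 h3 => absurd (Subset.antisymm h2 h1) h3

structure Iso (S : Str U) (T : Str V) (f : U → V) (W : Finset U) : Prop where
  inj : ∀ a ∈ W, ∀ b ∈ W, f a = f b → a = b
  E : ∀ a ∈ W, ∀ b ∈ W, T.E (f a) (f b) ↔ S.E a b
  J : ∀ a ∈ W, ∀ b ∈ W, T.J (f a) (f b) ↔ S.J a b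
  R : ∀ x ∈ W, ∀ a ∈ W, ∀ b ∈ W, T.R (f x) (f a) (f b) ↔ S.R x a b

lemma Iso.mono {S : Str U} {T : Str V} {f : U → V} {W W' : Finset U} (h : Iso S T f W)
    (hW : W' ⊆ W) : Iso S T f W' :=
  ⟨fun a ha b hb => h.inj a (hW ha) b (hW hb), fun a ha b hb => h.E a (hW ha) b (hW hb),
    fun a ha b hb => h.J a (hW ha) b (hW hb),
    fun x hx a ha b hb => h.R x (hW hx) a (hW ha) b (hW hb)⟩

lemma Iso.refl (S : Str U) (W : Finset U) : Iso S S id W :=
  ⟨fun _ _ _ _ h => h, fun _ _ _ _ => Iff.rfl, fun _ _ _ _ => Iff.rfl, fun _ _ _ _ _ _ => Iff.rfl⟩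

lemma Iso.comp {X : Type} [DecidableEq X] {S : Str U} {T : Str V} {Q : Str X} {f : U → V}
    {g : V → X} {W : Finset U} {W' : Finset V} (h : Iso S T f W) (h' : Iso T Q g W')
    (hW : ∀ a ∈ W, f a ∈ W') : Iso S Q (g ∘ f) W :=
  ⟨fun a ha b hb e => h.inj a ha b hb (h'.inj _ (hW a ha) _ (hW b hb) e),
    fun a ha b hb => (h'.E _ (hW a ha) _ (hW b hb)).trans (h.E a ha b hb),
    fun a ha b hb => (h'.J _ (hW a ha) _ (hW b hb)).trans (h.J a ha b hb),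
    fun x hx a ha b hb => (h'.R _ (hW x hx) _ (hW a ha) _ (hW b hb)).trans (h.R x hx a ha b hb)⟩

lemma Iso.congr {S : Str U} {T : Str V} {f g : U → V} {W : Finset U} (h : Iso S T f W)
    (e : ∀ a ∈ W, g a = f a) : Iso S T g W :=
  ⟨fun a ha b hb => by rw [e a ha, e b hb]; exact h.inj a ha b hb,
    fun a ha b hb => by rw [e a ha, e b hb]; exact h.E a ha b hb,
    fun a ha b hb => by rw [e a ha, e b hb]; exact h.J a ha b hb,
    fun x hx a ha b hb => by rw [e x hx, e a ha, e b hb]; exact h.R x hx a ha b hb⟩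

/-- an inverse of a partial isomorphism -/
lemma Iso.inv {S : Str U} {T : Str V} {f : U → V} {g : V → U} {W : Finset U} (h : Iso S T f W)
    (e : ∀ a ∈ W, g (f a) = a) : Iso T S g (W.image f) := by
  refine ⟨?_, ?_, ?_, ?_⟩
  · simp only [mem_image]
    rintro _ ⟨a, ha, rfl⟩ _ ⟨b, hb, rfl⟩ hh
    rw [e a ha, e b hb] at hh
    rw [hh]
  · simp only [mem_image]
    rintro _ ⟨a, ha, rfl⟩ _ ⟨b, hb, rfl⟩
    rw [e a ha, e b hb, h.E a ha b hb]
  · simp only [mem_image]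
    rintro _ ⟨a, ha, rfl⟩ _ ⟨b, hb, rfl⟩
    rw [e a ha, e b hb, h.J a ha b hb]
  · simp only [mem_image]
    rintro _ ⟨x, hx, rfl⟩ _ ⟨a, ha, rfl⟩ _ ⟨b, hb, rfl⟩
    rw [e x hx, e a ha, e b hb, h.R x hx a ha b hb]

lemma Iso.exists_inv [Nonempty U] {S : Str U} {T : Str V} {f : U → V} {W : Finset U}
    (h : Iso S T f W) : ∃ g : V → U, ∀ a ∈ W, g (f a) = a := by
  classical
  refine ⟨fun v => if hv : ∃ a ∈ W, f a = v then hv.choose else Classical.arbitrary U, ?_⟩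
  intro a ha
  have hv : ∃ a' ∈ W, f a' = f a := ⟨a, ha, rfl⟩
  simp only [hv, dif_pos]
  exact h.inj _ hv.choose_spec.1 _ ha hv.choose_spec.2

lemma Iso.symm_id {S T : Str U} {W : Finset U} (h : Iso S T id W) : Iso T S id W := by
  have := h.inv (g := id) (fun _ _ => rfl)
  simpa using this

lemma Iso.card {S : Str U} {T : Str V} {f : U → V} {W X : Finset U} (h : Iso S T f W)
    (hX : X ⊆ W) : (X.image f).card = X.card :=
  card_image_of_injOn fun a ha b hb e => h.inj a (hX ha) b (hX hb) e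

lemma Iso.δ {S : Str U} {T : Str V} {f : U → V} {W X : Finset U} (h : Iso S T f W)
    (hX : X ⊆ W) : T.δ (X.image f) = S.δ X := by
  have h1 : T.edges (X.image f) = (S.edges X).image (Prod.map f f) := by
    ext ⟨u, v⟩
    simp only [mem_edges, mem_image, Prod.exists, Prod.map, Prod.mk.injEq]
    constructor
    · rintro ⟨⟨a, ha, rfl⟩, ⟨b, hb, rfl⟩, hE⟩
      exact ⟨a, b, ⟨ha, hb, (h.E a (hX ha) b (hX hb)).1 hE⟩, rfl, rfl⟩
    · rintro ⟨a, b, ⟨ha, hb, hE⟩, rfl, rfl⟩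
      exact ⟨⟨a, ha, rfl⟩, ⟨b, hb, rfl⟩, (h.E a (hX ha) b (hX hb)).2 hE⟩
  have h2 : ((S.edges X).image (Prod.map f f)).card = (S.edges X).card := by
    apply card_image_of_injOn
    rintro ⟨a, b⟩ hp ⟨c, d⟩ hq e
    rw [mem_coe, mem_edges] at hp hq
    simp only [Prod.map, Prod.mk.injEq] at e
    exact Prod.ext (h.inj _ (hX hp.1) _ (hX hq.1) e.1) (h.inj _ (hX hp.2.1) _ (hX hq.2.1) e.2)
  unfold Str.δ
  rw [h1, h2, h.card hX]

lemma Iso.δ_id {S T : Str U} {W X : Finset U} (h : Iso S T id W) (hX : X ⊆ W) :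
    T.δ X = S.δ X := by
  simpa using h.δ hX

lemma Iso.preimage {S : Str U} {T : Str V} {f : U → V} {A W : Finset U} (h : Iso S T f W)
    (hA : A ⊆ W) {Y : Finset V} (h1 : A.image f ⊆ Y) (h2 : Y ⊆ W.image f) :
    ∃ X, A ⊆ X ∧ X ⊆ W ∧ X.image f = Y := by
  refine ⟨W.filter fun a => f a ∈ Y, fun a ha => mem_filter.2 ⟨hA ha, h1 (mem_image_of_mem f ha)⟩,
    filter_subset _ _, ?_⟩
  ext v
  simp only [mem_image, mem_filter]
  constructor
  · rintro ⟨a, ⟨_, ha⟩, rfl⟩; exact ha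
  · intro hv
    obtain ⟨a, ha, rfl⟩ := mem_image.1 (h2 hv)
    exact ⟨a, ⟨ha, hv⟩, rfl⟩

lemma Iso.cl {S : Str U} {T : Str V} {f : U → V} {A W : Finset U} (h : Iso S T f W)
    (hA : A ⊆ W) (hc : Cl S A W) : Cl T (A.image f) (W.image f) := by
  intro Y h1 h2 h3
  obtain ⟨X, x1, x2, rfl⟩ := h.preimage hA h1 h2
  rw [h.δ hA, h.δ x2]
  exact hc X x1 x2 fun e => h3 (by rw [e])

lemma Iso.cl_id {S T : Str U} {A W : Finset U} (h : Iso S T id W)
    (hA : A ⊆ W) (hc : Cl S A W) : Cl T A W := by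
  simpa using h.cl hA hc

structure Good (S : Str U) (W : Finset U) : Prop where
  ori : ∀ x ∈ W, ∀ a ∈ W, ∀ b ∈ W, S.E a b → S.R x a b ∨ S.R x b a
  clq : ∀ x ∈ W, ∀ a ∈ W, ∀ f : Fin 5 → U, Function.Injective f → (∀ i, f i ∈ W) →
    (∀ i j, i ≠ j → S.J (f i) (f j)) → ¬ ∀ i, S.R x a (f i)
  ctl : ∀ X ⊆ W, 0 ≤ S.δ X ∧ X.card ≤ 2 ^ (S.δ X).toNat

lemma Good.mono {S : Str U} {W W' : Finset U} (h : Good S W) (hW : W' ⊆ W) : Good S W' :=
  ⟨fun x hx a ha b hb => h.ori x (hW hx) a (hW ha) b (hW hb),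
    fun x hx a ha f hf h1 => h.clq x (hW hx) a (hW ha) f hf fun i => hW (h1 i),
    fun X hX => h.ctl X (hX.trans hW)⟩

lemma Iso.good {S : Str U} {T : Str V} {f : U → V} {W : Finset U} (h : Iso S T f W)
    (hg : Good S W) : Good T (W.image f) := by
  refine ⟨?_, ?_, ?_⟩
  · simp only [mem_image]
    rintro _ ⟨x, hx, rfl⟩ _ ⟨a, ha, rfl⟩ _ ⟨b, hb, rfl⟩
    rw [h.E a ha b hb, h.R x hx a ha b hb, h.R x hx b hb a ha]
    exact hg.ori x hx a ha b hb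
  · simp only [mem_image]
    rintro _ ⟨x, hx, rfl⟩ _ ⟨a, ha, rfl⟩ g hg1 hg2 hJ hR
    choose g' hg' e using hg2
    refine hg.clq x hx a ha g' (fun i j hij => hg1 (by rw [← e i, ← e j, hij])) hg' ?_ ?_
    · intro i j hij
      rw [← h.J _ (hg' i) _ (hg' j), e, e]
      exact hJ i j hij
    · intro i
      rw [← h.R _ hx _ ha _ (hg' i), e]
      exact hR i
  · intro Y hY
    obtain ⟨X, -, x2, rfl⟩ := h.preimage (empty_subset W) (by simp) hY
    rw [h.δ x2, h.card x2]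
    exact hg.ctl X x2

lemma Iso.good_id {S T : Str U} {W : Finset U} (h : Iso S T id W) (hg : Good S W) :
    Good T W := by
  simpa using h.good hg

/-- push a structure forward along a map -/
def Str.push (S : Str U) (f : U → V) (W : Finset U) : Str V where
  E u v := ∃ a ∈ W, ∃ b ∈ W, f a = u ∧ f b = v ∧ S.E a b
  J u v := ∃ a ∈ W, ∃ b ∈ W, f a = u ∧ f b = v ∧ S.J a b
  R y u v := ∃ x ∈ W, ∃ a ∈ W, ∃ b ∈ W, f x = y ∧ f a = u ∧ f b = v ∧ S.R x a b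

lemma iso_push (S : Str U) {f : U → V} {W : Finset U}
    (hf : ∀ a ∈ W, ∀ b ∈ W, f a = f b → a = b) : Iso S (S.push f W) f W := by
  refine ⟨hf, fun a ha b hb => ⟨?_, fun h => ⟨a, ha, b, hb, rfl, rfl, h⟩⟩,
    fun a ha b hb => ⟨?_, fun h => ⟨a, ha, b, hb, rfl, rfl, h⟩⟩,
    fun x hx a ha b hb => ⟨?_, fun h => ⟨x, hx, a, ha, b, hb, rfl, rfl, rfl, h⟩⟩⟩
  · rintro ⟨a', ha', b', hb', e1, e2, h⟩
    rwa [hf _ ha' _ ha e1, hf _ hb' _ hb e2] at h
  · rintro ⟨a', ha', b', hb', e1, e2, h⟩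
    rwa [hf _ ha' _ ha e1, hf _ hb' _ hb e2] at h
  · rintro ⟨x', hx', a', ha', b', hb', e0, e1, e2, h⟩
    rwa [hf _ hx' _ hx e0, hf _ ha' _ ha e1, hf _ hb' _ hb e2] at h

/-- a relative orientation with small out-degrees -/
structure Ori (S : Str U) (A W : Finset U) (τ : U → U → Prop) : Prop where
  src : ∀ a b, τ a b → a ∈ W ∧ a ∉ A ∧ b ∈ W
  cov : ∀ a ∈ W, ∀ b ∈ W, S.E a b → ¬ (a ∈ A ∧ b ∈ A) → τ a b ∨ τ b a
  deg : ∀ a, ∀ f : Fin 5 → U, Function.Injective f → ¬ ∀ i, τ a (f i)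

lemma exists_ori {S : Str U} {A W : Finset U} (hA : A ⊆ W) (h : WCl S A W) :
    ∃ τ, Ori S A W τ := by
  classical
  let ι := {p : U × U // p ∈ S.edges W \ S.edges A}
  let t : ι → Finset (U × Fin 4) := fun p => (({p.1.1, p.1.2} : Finset U) \ A) ×ˢ univ
  have hall : ∀ s : Finset ι, s.card ≤ (s.biUnion t).card := by
    intro s
    let Y : Finset U := s.biUnion fun p => ({p.1.1, p.1.2} : Finset U) \ A
    have e1 : s.biUnion t = Y ×ˢ univ := by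
      ext ⟨u, i⟩
      simp [Y, t]
    have hYW : Y ⊆ W := by
      intro u hu
      obtain ⟨p, -, hp⟩ := mem_biUnion.1 hu
      have := mem_edges.1 (mem_sdiff.1 p.2).1
      rcases mem_insert.1 (mem_sdiff.1 hp).1 with e | e
      · exact e ▸ this.1
      · exact (mem_singleton.1 e) ▸ this.2.1
    have hd : Disjoint A Y := by
      rw [disjoint_right]
      intro u hu
      obtain ⟨p, -, hp⟩ := mem_biUnion.1 hu
      exact (mem_sdiff.1 hp).2
    have e2 := h (A ∪ Y) subset_union_left (union_subset hA hYW)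
    have e3 : s.map (Function.Embedding.subtype _) ⊆ S.edges (A ∪ Y) \ S.edges A := by
      intro q hq
      obtain ⟨p, hp, rfl⟩ := mem_map.1 hq
      have h1 := mem_edges.1 (mem_sdiff.1 p.2).1
      refine mem_sdiff.2 ⟨mem_edges.2 ⟨?_, ?_, h1.2.2⟩, (mem_sdiff.1 p.2).2⟩
      · by_cases ha : p.1.1 ∈ A
        · exact mem_union_left _ ha
        · exact mem_union_right _ (mem_biUnion.2 ⟨p, hp, mem_sdiff.2 ⟨by simp, ha⟩⟩)
      · by_cases ha : p.1.2 ∈ A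
        · exact mem_union_left _ ha
        · exact mem_union_right _ (mem_biUnion.2 ⟨p, hp, mem_sdiff.2 ⟨by simp, ha⟩⟩)
    have e4 := card_le_card e3
    have e5 : S.edges A ⊆ S.edges (A ∪ Y) := by
      intro p; simp only [mem_edges, mem_union]; tauto
    rw [card_map, card_sdiff_of_subset e5] at e4
    have e6 := card_le_card e5
    unfold Str.δ at e2
    rw [card_union_of_disjoint hd] at e2
    rw [e1, card_product, card_univ, Fintype.card_fin]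
    push_cast at e2
    omega
  obtain ⟨F, hF, hFt⟩ := (all_card_le_biUnion_card_iff_exists_injective t).1 hall
  have hF1 : ∀ p : ι, ((F p).1 = p.1.1 ∨ (F p).1 = p.1.2) ∧ (F p).1 ∉ A := by
    intro p
    have := (mem_product.1 (hFt p)).1
    simpa using this
  refine ⟨fun a b => ∃ p : ι, (F p).1 = a ∧ (p.1 = (a, b) ∨ p.1 = (b, a)), ?_, ?_, ?_⟩
  · rintro a b ⟨p, h1, h2⟩
    have h3 := mem_edges.1 (mem_sdiff.1 p.2).1
    refine ⟨?_, h1 ▸ (hF1 p).2, ?_⟩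
    · rcases h2 with e | e <;> rw [e] at h3
      exacts [h3.1, h3.2.1]
    · rcases h2 with e | e <;> rw [e] at h3
      exacts [h3.2.1, h3.1]
  · intro a ha b hb hab hn
    let p : ι := ⟨(a, b), mem_sdiff.2 ⟨mem_edges.2 ⟨ha, hb, hab⟩, fun hh =>
      hn ⟨(mem_edges.1 hh).1, (mem_edges.1 hh).2.1⟩⟩⟩
    rcases (hF1 p).1 with e | e
    · exact Or.inl ⟨p, e, Or.inl rfl⟩
    · exact Or.inr ⟨p, e, Or.inr rfl⟩
  · intro a f hf hτ
    choose p h1 h2 using hτ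
    obtain ⟨i, j, hij, e⟩ := Fintype.exists_ne_map_eq_of_card_lt (fun i => (F (p i)).2) (by simp)
    have e2 : p i = p j := hF (Prod.ext ((h1 i).trans (h1 j).symm) e)
    apply hij
    apply hf
    have a1 := h2 i
    have a2 := h2 j
    rw [e2] at a1
    rcases a1 with a1 | a1 <;> rcases a2 with a2 | a2 <;> rw [a1] at a2 <;>
      simp only [Prod.mk.injEq] at a2
    · exact a2.2
    · exact a2.2.trans a2.1
    · exact a2.1.trans a2.2
    · exact a2.1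

lemma Ori.push {S : Str U} {T : Str V} {f : U → V} {A W : Finset U} {τ : U → U → Prop}
    (h : Ori S A W τ) (hA : A ⊆ W) (hf : Iso S T f W) :
    Ori T (A.image f) (W.image f) fun u v => ∃ a b, τ a b ∧ f a = u ∧ f b = v := by
  refine ⟨?_, ?_, ?_⟩
  · rintro _ _ ⟨a, b, hτ, rfl, rfl⟩
    obtain ⟨h1, h2, h3⟩ := h.src a b hτ
    refine ⟨mem_image_of_mem f h1, fun hh => ?_, mem_image_of_mem f h3⟩
    obtain ⟨a', ha', e⟩ := mem_image.1 hh
    exact h2 (hf.inj _ (hA ha') _ h1 e ▸ ha')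
  · simp only [mem_image]
    rintro _ ⟨a, ha, rfl⟩ _ ⟨b, hb, rfl⟩ hE hn
    rcases h.cov a ha b hb ((hf.E a ha b hb).1 hE)
      (fun hh => hn ⟨⟨a, hh.1, rfl⟩, ⟨b, hh.2, rfl⟩⟩) with h1 | h1
    · exact Or.inl ⟨a, b, h1, rfl, rfl⟩
    · exact Or.inr ⟨b, a, h1, rfl, rfl⟩
  · intro u g hg hτ
    choose a b h1 h2 h3 using hτ
    refine h.deg (a 0) b (fun i j hij => hg (by rw [← h3 i, ← h3 j, hij])) fun i => ?_
    have : a i = a 0 := hf.inj _ (h.src _ _ (h1 i)).1 _ (h.src _ _ (h1 0)).1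
      ((h2 i).trans (h2 0).symm)
    exact this ▸ h1 i

/-- the free amalgam -/
def amal (S1 S2 : Str U) (W1 W2 : Finset U) (τ1 τ2 : U → U → Prop) : Str U where
  E a b := (a ∈ W1 ∧ b ∈ W1 ∧ S1.E a b) ∨ (a ∈ W2 ∧ b ∈ W2 ∧ S2.E a b)
  J a b := (a ∈ W1 ∧ b ∈ W1 ∧ S1.J a b) ∨ (a ∈ W2 ∧ b ∈ W2 ∧ S2.J a b)
  R x a b := (x ∈ W1 ∧ a ∈ W1 ∧ b ∈ W1 ∧ S1.R x a b) ∨ (x ∈ W2 ∧ a ∈ W2 ∧ b ∈ W2 ∧ S2.R x a b) ∨
    (x ∈ W1 ∧ x ∉ W2 ∧ τ2 a b) ∨ (x ∈ W2 ∧ x ∉ W1 ∧ τ1 a b)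

lemma amal_comm (S1 S2 : Str U) (W1 W2 : Finset U) (τ1 τ2 : U → U → Prop) :
    amal S1 S2 W1 W2 τ1 τ2 = amal S2 S1 W2 W1 τ2 τ1 := by
  ext <;> simp only [amal] <;> tauto

/-- the data of an amalgamation problem -/
structure Prob (S1 S2 : Str U) (W1 W2 : Finset U) (τ1 τ2 : U → U → Prop) : Prop where
  agree : Iso S1 S2 id (W1 ∩ W2)
  good1 : Good S1 W1
  good2 : Good S2 W2
  cl1 : Cl S1 (W1 ∩ W2) W1
  cl2 : Cl S2 (W1 ∩ W2) W2
  ori1 : Ori S1 (W1 ∩ W2) W1 τ1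
  ori2 : Ori S2 (W1 ∩ W2) W2 τ2

variable {S1 S2 : Str U} {W1 W2 : Finset U} {τ1 τ2 : U → U → Prop}

lemma Prob.symm (h : Prob S1 S2 W1 W2 τ1 τ2) : Prob S2 S1 W2 W1 τ2 τ1 := by
  obtain ⟨a, b, c, d, e, f, g⟩ := h
  rw [inter_comm] at a d e f g
  exact ⟨a.symm_id, c, b, e, d, g, f⟩

lemma Prob.iso1 (h : Prob S1 S2 W1 W2 τ1 τ2) : Iso S1 (amal S1 S2 W1 W2 τ1 τ2) id W1 := by
  refine ⟨fun _ _ _ _ e => e, fun a ha b hb => ⟨?_, fun hh => Or.inl ⟨ha, hb, hh⟩⟩,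
    fun a ha b hb => ⟨?_, fun hh => Or.inl ⟨ha, hb, hh⟩⟩,
    fun x hx a ha b hb => ⟨?_, fun hh => Or.inl ⟨hx, ha, hb, hh⟩⟩⟩
  · rintro (hh | hh)
    · exact hh.2.2
    · exact (h.agree.E a (mem_inter.2 ⟨ha, hh.1⟩) b (mem_inter.2 ⟨hb, hh.2.1⟩)).1 hh.2.2
  · rintro (hh | hh)
    · exact hh.2.2
    · exact (h.agree.J a (mem_inter.2 ⟨ha, hh.1⟩) b (mem_inter.2 ⟨hb, hh.2.1⟩)).1 hh.2.2
  · rintro (hh | hh | hh | hh)
    · exact hh.2.2.2
    · exact (h.agree.R x (mem_inter.2 ⟨hx, hh.1⟩) a (mem_inter.2 ⟨ha, hh.2.1⟩) b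
        (mem_inter.2 ⟨hb, hh.2.2.1⟩)).1 hh.2.2.2
    · have := h.ori2.src _ _ hh.2.2
      exact absurd (mem_inter.2 ⟨ha, this.1⟩) this.2.1
    · exact absurd hx hh.2.1

lemma Prob.iso2 (h : Prob S1 S2 W1 W2 τ1 τ2) : Iso S2 (amal S1 S2 W1 W2 τ1 τ2) id W2 := by
  rw [amal_comm]; exact h.symm.iso1

lemma Prob.δ (h : Prob S1 S2 W1 W2 τ1 τ2) {X : Finset U} (hX : X ⊆ W1 ∪ W2) :
    (amal S1 S2 W1 W2 τ1 τ2).δ X + S1.δ (X ∩ (W1 ∩ W2)) = S1.δ (X ∩ W1) + S2.δ (X ∩ W2) := by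
  have f : Free (amal S1 S2 W1 W2 τ1 τ2) (X ∩ W1) (X ∩ W2) := by
    intro a ha b hb hab
    have ha' : a ∈ X := by rcases mem_union.1 ha with h | h <;> exact (mem_inter.1 h).1
    have hb' : b ∈ X := by rcases mem_union.1 hb with h | h <;> exact (mem_inter.1 h).1
    rcases hab with hh | hh
    · exact Or.inl ⟨mem_inter.2 ⟨ha', hh.1⟩, mem_inter.2 ⟨hb', hh.2.1⟩⟩
    · exact Or.inr ⟨mem_inter.2 ⟨ha', hh.1⟩, mem_inter.2 ⟨hb', hh.2.1⟩⟩
  have e := δ_free f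
  have e1 : X ∩ W1 ∪ X ∩ W2 = X := by
    rw [← inter_union_distrib_left]; exact inter_eq_left.2 hX
  have e2 : X ∩ W1 ∩ (X ∩ W2) = X ∩ (W1 ∩ W2) := by
    ext a; simp only [mem_inter]; tauto
  rw [e1, e2, h.iso1.δ_id (X := X ∩ W1) inter_subset_right,
    h.iso2.δ_id (X := X ∩ W2) inter_subset_right,
    h.iso1.δ_id (X := X ∩ (W1 ∩ W2)) (inter_subset_right.trans inter_subset_left)] at e
  exact e

lemma Prob.δ12 (h : Prob S1 S2 W1 W2 τ1 τ2) (X : Finset U) :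
    S2.δ (X ∩ (W1 ∩ W2)) = S1.δ (X ∩ (W1 ∩ W2)) := h.agree.δ_id inter_subset_right

lemma Prob.cl_left (h : Prob S1 S2 W1 W2 τ1 τ2) : Cl (amal S1 S2 W1 W2 τ1 τ2) W1 (W1 ∪ W2) := by
  intro Y h1 h2 h3
  have e := h.δ h2
  have e1 : Y ∩ W1 = W1 := inter_eq_right.2 h1
  have e2 : Y ∩ (W1 ∩ W2) = W1 ∩ W2 := inter_eq_right.2 (inter_subset_left.trans h1)
  have e3 := h.cl2 (Y ∩ W2) (subset_inter (inter_subset_left.trans h1) inter_subset_right)
    inter_subset_right (fun hh => h3 (by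
      refine Subset.antisymm (fun a ha => ?_) h1
      rcases mem_union.1 (h2 ha) with h4 | h4
      · exact h4
      · have : a ∈ Y ∩ W2 := mem_inter.2 ⟨ha, h4⟩
        rw [hh] at this
        exact (mem_inter.1 this).1))
  have e4 := h.δ12 Y
  rw [e2] at e e4
  rw [e1] at e
  rw [h.iso1.δ_id Subset.rfl]
  omega

lemma Prob.cl_right (h : Prob S1 S2 W1 W2 τ1 τ2) : Cl (amal S1 S2 W1 W2 τ1 τ2) W2 (W1 ∪ W2) := by
  rw [amal_comm, union_comm]; exact h.symm.cl_left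

lemma Prob.clq_aux (h : Prob S1 S2 W1 W2 τ1 τ2) {x a : U} (hx : x ∈ W1) {f : Fin 5 → U}
    (hf : Function.Injective f) (hJ : ∀ i j, i ≠ j → (amal S1 S2 W1 W2 τ1 τ2).J (f i) (f j))
    (hR : ∀ i, (amal S1 S2 W1 W2 τ1 τ2).R x a (f i)) (ha : a ∈ W1) (hfW : ∀ i, f i ∈ W1) :
    False :=
  h.good1.clq x hx a ha f hf hfW (fun i j hij => (h.iso1.J _ (hfW i) _ (hfW j)).1 (hJ i j hij))
    fun i => (h.iso1.R _ hx _ ha _ (hfW i)).1 (hR i)

lemma Prob.clq_left (h : Prob S1 S2 W1 W2 τ1 τ2) {x a : U} (hx : x ∈ W1) (hx2 : x ∉ W2)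
    {f : Fin 5 → U}
    (hf : Function.Injective f) (hJ : ∀ i j, i ≠ j → (amal S1 S2 W1 W2 τ1 τ2).J (f i) (f j))
    (hR : ∀ i, (amal S1 S2 W1 W2 τ1 τ2).R x a (f i)) : False := by
  by_cases ha : a ∈ W1
  · refine h.clq_aux hx hf hJ hR ha fun i => ?_
    rcases hR i with hh | hh | hh | hh
    · exact hh.2.2.1
    · exact absurd hh.1 hx2
    · have := h.ori2.src _ _ hh.2.2
      exact absurd (mem_inter.2 ⟨ha, this.1⟩) this.2.1
    · exact absurd hx hh.2.1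
  · refine h.ori2.deg a f hf fun i => ?_
    rcases hR i with hh | hh | hh | hh
    · exact absurd hh.2.1 ha
    · exact absurd hh.1 hx2
    · exact hh.2.2
    · exact absurd hx hh.2.1

lemma Prob.ctl_aux (h : Prob S1 S2 W1 W2 τ1 τ2) {X : Finset U} (hX : X ⊆ W1 ∪ W2)
    (hc : (X ∩ W2).card ≤ (X ∩ W1).card) :
    0 ≤ (amal S1 S2 W1 W2 τ1 τ2).δ X ∧ X.card ≤ 2 ^ ((amal S1 S2 W1 W2 τ1 τ2).δ X).toNat := by
  by_cases h1 : X ⊆ W1
  · rw [h.iso1.δ_id h1]; exact h.good1.ctl X h1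
  · have e := h.δ hX
    have e2 := h.δ12 X
    have e3 := h.cl2.inter_lt inter_subset_right (X := X ∩ W2) inter_subset_right (fun hh => h1 (by
      intro a ha
      rcases mem_union.1 (hX ha) with h4 | h4
      · exact h4
      · exact (mem_inter.1 (hh (mem_inter.2 ⟨ha, h4⟩))).1))
    have e4 : X ∩ W2 ∩ (W1 ∩ W2) = X ∩ (W1 ∩ W2) := by
      ext a; simp only [mem_inter]; tauto
    rw [e4] at e3
    obtain ⟨c1, c2⟩ := h.good1.ctl (X ∩ W1) inter_subset_right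
    have e5 : X.card ≤ (X ∩ W1).card + (X ∩ W2).card := by
      refine le_trans (le_of_eq ?_) (card_union_le _ _)
      rw [← inter_union_distrib_left, inter_eq_left.2 hX]
    refine ⟨by omega, ?_⟩
    have e6 : (S1.δ (X ∩ W1)).toNat + 1 ≤ ((amal S1 S2 W1 W2 τ1 τ2).δ X).toNat := by omega
    calc X.card ≤ 2 * 2 ^ (S1.δ (X ∩ W1)).toNat := by omega
      _ = 2 ^ ((S1.δ (X ∩ W1)).toNat + 1) := by ring
      _ ≤ _ := Nat.pow_le_pow_right (by norm_num) e6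

lemma Prob.ori_left (h : Prob S1 S2 W1 W2 τ1 τ2) {x a b : U} (hx : x ∈ W1 ∪ W2) (ha : a ∈ W1)
    (hb : b ∈ W1) (hE : S1.E a b) :
    (amal S1 S2 W1 W2 τ1 τ2).R x a b ∨ (amal S1 S2 W1 W2 τ1 τ2).R x b a := by
  by_cases hx1 : x ∈ W1
  · rcases h.good1.ori x hx1 a ha b hb hE with hh | hh
    · exact Or.inl (Or.inl ⟨hx1, ha, hb, hh⟩)
    · exact Or.inr (Or.inl ⟨hx1, hb, ha, hh⟩)
  · have hx2 : x ∈ W2 := (mem_union.1 hx).resolve_left hx1
    by_cases hab : a ∈ W1 ∩ W2 ∧ b ∈ W1 ∩ W2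
    · have ha2 := (mem_inter.1 hab.1).2
      have hb2 := (mem_inter.1 hab.2).2
      rcases h.good2.ori x hx2 a ha2 b hb2 ((h.agree.E a hab.1 b hab.2).2 hE) with hh | hh
      · exact Or.inl (Or.inr (Or.inl ⟨hx2, ha2, hb2, hh⟩))
      · exact Or.inr (Or.inr (Or.inl ⟨hx2, hb2, ha2, hh⟩))
    · rcases h.ori1.cov a ha b hb hE hab with hh | hh
      · exact Or.inl (Or.inr (Or.inr (Or.inr ⟨hx2, hx1, hh⟩)))
      · exact Or.inr (Or.inr (Or.inr (Or.inr ⟨hx2, hx1, hh⟩)))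

lemma Prob.good (h : Prob S1 S2 W1 W2 τ1 τ2) : Good (amal S1 S2 W1 W2 τ1 τ2) (W1 ∪ W2) := by
  refine ⟨?_, ?_, ?_⟩
  · rintro x hx a - b - (hh | hh)
    · exact h.ori_left hx hh.1 hh.2.1 hh.2.2
    · rw [amal_comm]
      exact h.symm.ori_left (by rwa [union_comm]) hh.1 hh.2.1 hh.2.2
  · intro x hx a ha f hf hfW hJ hR
    by_cases hx1 : x ∈ W1
    · by_cases hx2 : x ∈ W2
      · have hRR : ∀ i, (a ∈ W1 ∧ f i ∈ W1) ∨ (a ∈ W2 ∧ f i ∈ W2) := by
          intro i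
          rcases hR i with hh | hh | hh | hh
          · exact Or.inl ⟨hh.2.1, hh.2.2.1⟩
          · exact Or.inr ⟨hh.2.1, hh.2.2.1⟩
          · exact absurd hx2 hh.2.1
          · exact absurd hx1 hh.2.1
        by_cases c1 : a ∈ W1 ∧ ∀ i, f i ∈ W1
        · exact h.clq_aux hx1 hf hJ hR c1.1 c1.2
        · have c2 : a ∈ W2 ∧ ∀ i, f i ∈ W2 := by
            by_cases ha1 : a ∈ W1
            · obtain ⟨i, hi⟩ := not_forall.1 (fun hh => c1 ⟨ha1, hh⟩)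
              have := (hRR i).resolve_left (fun hh => hi hh.2)
              refine ⟨this.1, fun j => ?_⟩
              by_cases hij : i = j
              · exact hij ▸ this.2
              · rcases hJ i j hij with hh | hh
                · exact absurd hh.1 hi
                · exact hh.2.1
            · exact ⟨((hRR 0).resolve_left fun hh => ha1 hh.1).1,
                fun i => ((hRR i).resolve_left fun hh => ha1 hh.1).2⟩
          rw [amal_comm] at hJ hR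
          exact h.symm.clq_aux hx2 hf hJ hR c2.1 c2.2
      · exact h.clq_left hx1 hx2 hf hJ hR
    · rw [amal_comm] at hJ hR
      exact h.symm.clq_left ((mem_union.1 hx).resolve_left hx1) hx1 hf hJ hR
  · intro X hX
    rcases le_total (X ∩ W2).card (X ∩ W1).card with hc | hc
    · exact h.ctl_aux hX hc
    · rw [amal_comm]
      exact h.symm.ctl_aux (by rwa [union_comm]) hc

end Pool.Agent.H731Z.Ex.Sp
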