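import Mathlib

/-!
Dividing, forking and the strict order property, read inside a structure `N`. For a monster model
these are the usual notions. A formula `φ(x; y)` is a formula in the variables `α ⊕ β`.
-/

namespace Pool.Agent.H731Z.Ex

open FirstOrder FirstOrder.Language

universe u v w

variable (L : FirstOrder.Language.{u, v}) {N : Type w} [L.Structure N]

/-- The sequence of tuples `b` is indiscernible over `A`: increasing finite subsequences of the
same length satisfy the same formulas with parameters from `A`. -/
def Indiscernible (A : Set N) {β : Type} (b : ℕ → β → N) : Prop :=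
  ∀ (n : ℕ) (s t : Fin n → ℕ), StrictMono s → StrictMono t → ∀ φ : L.Formula (A ⊕ Fin n × β),
    φ.Realize (Sum.elim (fun a => (a : N)) fun p => b (s p.1) p.2) ↔
      φ.Realize (Sum.elim (fun a => (a : N)) fun p => b (t p.1) p.2)

variable {L}

/-- `φ(x; b)` divides over `A`: there is an `A`-indiscernible sequence `(c i)` starting with `b`
such that the set of the formulas `φ(x; c i)` is inconsistent, that is, finitely many of them
have no common solution. -/
def Divides (A : Set N) {α β : Type} (φ : L.Formula (α ⊕ β)) (b : β → N) : Prop :=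
  ∃ c : ℕ → β → N, c 0 = b ∧ Indiscernible L A c ∧
    ∃ I : Finset ℕ, ¬ ∃ x : α → N, ∀ i ∈ I, φ.Realize (Sum.elim x (c i))

/-- `φ(x; b)` forks over `A`: it implies a finite disjunction of formulas dividing over `A`. -/
def Forks (A : Set N) {α β : Type} (φ : L.Formula (α ⊕ β)) (b : β → N) : Prop :=
  ∃ (k : ℕ) (m : Fin k → ℕ) (ψ : ∀ j, L.Formula (α ⊕ Fin (m j))) (d : ∀ j, Fin (m j) → N),
    (∀ j, Divides A (ψ j) (d j)) ∧
      ∀ x : α → N, φ.Realize (Sum.elim x b) → ∃ j, (ψ j).Realize (Sum.elim x (d j))

variable (L)

/-- The complete type of the tuple `a` over `A` forks over `A`: it contains a formula `φ(x; b)`,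
with parameters `b` from `A`, that forks over `A`. -/
def TypeForks (A : Set N) {α : Type} (a : α → N) : Prop :=
  ∃ (m : ℕ) (φ : L.Formula (α ⊕ Fin m)) (b : Fin m → N),
    (∀ i, b i ∈ A) ∧ φ.Realize (Sum.elim a b) ∧ Forks A φ b

variable (N)

/-- The strict order property is witnessed in `N`: for some formula `φ(x; y)` and parameters
`b i`, the sets defined by `φ(x; b i)` form a strictly increasing chain. -/
def HasSOP : Prop :=
  ∃ (n m : ℕ) (φ : L.Formula (Fin n ⊕ Fin m)) (b : ℕ → Fin m → N),
    ∀ i, {x : Fin n → N | φ.Realize (Sum.elim x (b i))} ⊂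
      {x : Fin n → N | φ.Realize (Sum.elim x (b (i + 1)))}

end Pool.Agent.H731Z.Ex
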