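import Mathlib

/-! Structures with finitely many types of tuples: back and forth with elementarily equivalent
structures (adapted from the start file Results/MP_b29b59_lc/ConvexExpansion). -/

namespace Pool.Agent.H731Z.Ex.RN

open FirstOrder FirstOrder.Language

universe w

variable {L : FirstOrder.Language.{0, 0}} {M : Type} {N : Type w} [L.Structure M] [L.Structure N]

/-- Finitely many types of tuples. -/
def FinTypes (L : FirstOrder.Language.{0, 0}) (M : Type) [L.Structure M] : Prop :=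
  ∀ (ι : Type) [Finite ι], ∃ (F : Type) (_ : Finite F) (inv : (ι → M) → F),
      ∀ x y : ι → M, inv x = inv y → ∀ φ : L.Formula ι, (φ.Realize x ↔ φ.Realize y)

theorem realize_close {ι : Type} [Finite ι] (φ : L.Formula ι) (K : Type*) [L.Structure K] :
    (K ⊨ ((φ.relabel Sum.inr : L.Formula (Empty ⊕ ι)).iAlls ι : L.Formula Empty)) ↔
      ∀ x : ι → K, φ.Realize x := by
  change Formula.Realize _ _ ↔ _
  rw [Formula.realize_iAlls]
  apply forall_congr'
  intro x
  rw [Formula.realize_relabel]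
  rfl

theorem transfer (hMN : ∀ φ : L.Sentence, M ⊨ φ ↔ N ⊨ φ) {ι : Type} [Finite ι]
    (φ : L.Formula ι) : (∀ x : ι → M, φ.Realize x) ↔ (∀ z : ι → N, φ.Realize z) := by
  rw [← realize_close φ M, ← realize_close φ N]
  exact hMN _

theorem transfer_imp (hMN : ∀ φ : L.Sentence, M ⊨ φ ↔ N ⊨ φ) {ι : Type} [Finite ι]
    {θ φ : L.Formula ι} (h : ∀ x : ι → M, θ.Realize x → φ.Realize x) (z : ι → N)
    (hz : θ.Realize z) : φ.Realize z := by
  have := (transfer hMN (θ.imp φ)).1 (fun x => by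
    rw [Formula.realize_imp]; exact h x) z
  rw [Formula.realize_imp] at this
  exact this hz

theorem isolate (hfin : FinTypes L M) {ι : Type} [Finite ι] (x : ι → M) :
    ∃ θ : L.Formula ι, θ.Realize x ∧ ∀ y : ι → M, θ.Realize y →
      ∀ φ : L.Formula ι, (φ.Realize x ↔ φ.Realize y) := by
  obtain ⟨F, hF, inv, hinv⟩ := hfin ι
  have key : ∀ c : F, ∃ ψ : L.Formula ι, ψ.Realize x ∧ ∀ y : ι → M, inv y = c → ψ.Realize y →
      ∀ φ : L.Formula ι, (φ.Realize x ↔ φ.Realize y) := by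
    intro c
    by_cases h : ∃ ψ : L.Formula ι, ψ.Realize x ∧ ∃ y, inv y = c ∧ ¬ ψ.Realize y
    · obtain ⟨ψ, hψ, y, hy, hψy⟩ := h
      refine ⟨ψ, hψ, fun z hz hψz => ?_⟩
      exact absurd ((hinv y z (hy.trans hz.symm) ψ).2 hψz) hψy
    · push Not at h
      refine ⟨⊤, by simp, fun y hy _ φ => ⟨fun hφ => h φ hφ y hy, fun hφ => ?_⟩⟩
      by_contra hc
      exact (h φ.not (by rwa [Formula.realize_not]) y hy) hφ
  choose ψ h1 h2 using key
  refine ⟨Formula.iInf ψ, ?_, ?_⟩
  · rw [Formula.realize_iInf]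
    exact h1
  · intro y hy
    rw [Formula.realize_iInf] at hy
    exact h2 (inv y) y rfl (hy _)

theorem same_type (hMN : ∀ φ : L.Sentence, M ⊨ φ ↔ N ⊨ φ) {ι : Type} [Finite ι]
    {x : ι → M} {θ : L.Formula ι}
    (h : ∀ y : ι → M, θ.Realize y → ∀ φ : L.Formula ι, (φ.Realize x ↔ φ.Realize y)) (z : ι → N)
    (hz : θ.Realize z) (φ : L.Formula ι) : φ.Realize x ↔ φ.Realize z := by
  constructor
  · intro hφ
    exact transfer_imp hMN (fun y hy => (h y hy φ).1 hφ) z hz
  · intro hφ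
    by_contra hc
    have : (φ.not).Realize z := transfer_imp hMN (fun y hy => by
      rw [Formula.realize_not]
      exact fun h' => hc ((h y hy φ).2 h')) z hz
    rw [Formula.realize_not] at this
    exact this hφ

theorem atomic (hfin : FinTypes L M) (hMN : ∀ φ : L.Sentence, M ⊨ φ ↔ N ⊨ φ) {ι : Type}
    [Finite ι] (z : ι → N) : ∃ x : ι → M, ∀ φ : L.Formula ι, (φ.Realize x ↔ φ.Realize z) := by
  obtain ⟨F, hF, inv, hinv⟩ := hfin ι
  choose θ h1 h2 using (isolate (L := L) hfin (ι := ι))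
  let F' : Type := {c : F // ∃ x : ι → M, inv x = c}
  let r : F' → ι → M := fun c => c.2.choose
  have hr : ∀ c, inv (r c) = c.1 := fun c => c.2.choose_spec
  have hall : ∀ x : ι → M, (Formula.iSup (fun c => θ (r c)) : L.Formula ι).Realize x := by
    intro x
    rw [Formula.realize_iSup]
    refine ⟨⟨inv x, x, rfl⟩, ?_⟩
    exact (hinv _ _ (hr _) _).1 (h1 _)
  have := (transfer hMN _).1 hall z
  rw [Formula.realize_iSup] at this
  obtain ⟨c, hc⟩ := this
  exact ⟨r c, fun φ => same_type hMN (h2 (r c)) z hc φ⟩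

/-- A set of pairs is an elementary map. -/
def PP (L : FirstOrder.Language.{0, 0}) [L.Structure M] [L.Structure N] (S : Set (M × N)) :
    Prop :=
  ∀ (ι : Type) [Finite ι] (p : ι → M × N), (∀ i, p i ∈ S) →
    ∀ φ : L.Formula ι, (φ.Realize (fun i => (p i).1) ↔ φ.Realize (fun i => (p i).2))

theorem PP_insert {S : Set (M × N)} {a : M} {b : N} {k : ℕ} {e : Fin k → M × N}
    (he : ∀ q ∈ S, ∃ i, e i = q)
    (h : ∀ φ : L.Formula (Fin k ⊕ Unit),
      (φ.Realize (Sum.elim (fun i => (e i).1) (fun _ => a)) ↔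
        φ.Realize (Sum.elim (fun i => (e i).2) (fun _ => b)))) : PP L (insert (a, b) S) := by
  intro ι _ p hp φ
  have hg : ∀ i, ∃ j : Fin k ⊕ Unit, Sum.elim e (fun _ => (a, b)) j = p i := by
    intro i
    rcases hp i with h | h
    · exact ⟨Sum.inr (), h.symm⟩
    · obtain ⟨j, hj⟩ := he _ h
      exact ⟨Sum.inl j, hj⟩
  choose g hg using hg
  have e1 : (fun i => (p i).1) = (Sum.elim (fun i => (e i).1) (fun _ => a) : Fin k ⊕ Unit → M) ∘ g := by
    funext i
    rw [← hg i, Function.comp_apply]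
    cases g i <;> rfl
  have e2 : (fun i => (p i).2) = (Sum.elim (fun i => (e i).2) (fun _ => b) : Fin k ⊕ Unit → N) ∘ g := by
    funext i
    rw [← hg i, Function.comp_apply]
    cases g i <;> rfl
  rw [e1, e2, ← Formula.realize_relabel, ← Formula.realize_relabel]
  exact h _

theorem enum {X : Type*} {S : Set X} (hS : S.Finite) :
    ∃ (k : ℕ) (e : Fin k → X), (∀ i, e i ∈ S) ∧ ∀ q ∈ S, ∃ i, e i = q := by
  obtain ⟨k, e, -, he⟩ := hS.fin_param
  exact ⟨k, e, fun i => he ▸ Set.mem_range_self i, fun q hq => by rw [← he] at hq; exact hq⟩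

theorem forth (hfin : FinTypes L M) (hMN : ∀ φ : L.Sentence, M ⊨ φ ↔ N ⊨ φ)
    {S : Set (M × N)} (hf : S.Finite) (hS : PP L S) (a : M) :
    ∃ b, PP L (insert (a, b) S) := by
  obtain ⟨k, e, he1, he2⟩ := enum hf
  obtain ⟨θ, h1, h2⟩ := isolate hfin (ι := Fin k ⊕ Unit) (Sum.elim (fun i => (e i).1) (fun _ => a))
  have : (θ.iExs Unit).Realize (fun i => (e i).1) := by
    rw [Formula.realize_iExs]
    exact ⟨fun _ => a, h1⟩
  rw [hS _ e he1, Formula.realize_iExs] at this
  obtain ⟨b, hb⟩ := this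
  have hb' : b = fun _ => b () := by funext u; cases u; rfl
  rw [hb'] at hb
  exact ⟨b (), PP_insert he2 (fun φ => same_type hMN h2 _ hb φ)⟩

theorem back (hfin : FinTypes L M) (hMN : ∀ φ : L.Sentence, M ⊨ φ ↔ N ⊨ φ)
    {S : Set (M × N)} (hf : S.Finite) (hS : PP L S) (b : N) :
    ∃ a, PP L (insert (a, b) S) := by
  obtain ⟨k, e, he1, he2⟩ := enum hf
  obtain ⟨x, hx⟩ := atomic hfin hMN (ι := Fin k ⊕ Unit) (Sum.elim (fun i => (e i).2) (fun _ => b))
  obtain ⟨θ, h1, h2⟩ := isolate hfin x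
  have h3 := (hx θ).1 h1
  have : (θ.iExs Unit).Realize (fun i => (e i).2) := by
    rw [Formula.realize_iExs]
    exact ⟨fun _ => b, h3⟩
  rw [← hS _ e he1, Formula.realize_iExs] at this
  obtain ⟨a, ha⟩ := this
  have ha' : a = fun _ => a () := by funext u; cases u; rfl
  rw [ha'] at ha
  refine ⟨a (), PP_insert he2 (fun φ => ?_)⟩
  rw [← h2 _ ha φ]
  exact hx φ

/-- An elementary set of pairs covering `M` on the left and countably many given points on the
right. -/
theorem exists_pp [Countable M] (hfin : FinTypes L M) (hMN : ∀ φ : L.Sentence, M ⊨ φ ↔ N ⊨ φ)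
    {κ : Type*} [Countable κ] (v : κ → N) :
    ∃ G : Set (M × N), PP L G ∧ (∀ a, ∃ b, (a, b) ∈ G) ∧ ∀ k, ∃ a, (a, v k) ∈ G := by
  classical
  haveI := Encodable.ofCountable (M ⊕ κ)
  let P := {S : Set (M × N) // S.Finite ∧ PP L S}
  let D : M ⊕ κ → Order.Cofinal P := fun c => match c with
    | Sum.inl a => ⟨{S | ∃ b, (a, b) ∈ S.1}, fun S => by
        obtain ⟨b, hb⟩ := forth hfin hMN S.2.1 S.2.2 a
        exact ⟨⟨_, S.2.1.insert _, hb⟩, ⟨b, Set.mem_insert _ _⟩, Set.subset_insert _ _⟩⟩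
    | Sum.inr k => ⟨{S | ∃ a, (a, v k) ∈ S.1}, fun S => by
        obtain ⟨a, ha⟩ := back hfin hMN S.2.1 S.2.2 (v k)
        exact ⟨⟨_, S.2.1.insert _, ha⟩, ⟨a, Set.mem_insert _ _⟩, Set.subset_insert _ _⟩⟩
  have h0 : PP L (∅ : Set (M × N)) := by
    intro ι _ p hp φ
    have := transfer hMN φ
    constructor
    · intro h
      exact this.1 (fun x => by
        convert h using 1
        funext i
        exact absurd (hp i) (Set.notMem_empty _)) _
    · intro h
      exact this.2 (fun x => by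
        convert h using 1
        funext i
        exact absurd (hp i) (Set.notMem_empty _)) _
  let p0 : P := ⟨∅, Set.finite_empty, h0⟩
  let I := Order.idealOfCofinals p0 D
  have hfinite : ∀ (n : ℕ) (p : Fin n → M × N), (∀ i, ∃ S : P, S ∈ I ∧ p i ∈ S.1) →
      ∃ S : P, S ∈ I ∧ ∀ i, p i ∈ S.1 := by
    intro n
    induction n with
    | zero =>
      intro p _
      exact ⟨p0, Order.mem_idealOfCofinals _ _, fun i => i.elim0⟩
    | succ n ih =>
      intro p hp
      obtain ⟨S, hS, hSp⟩ := ih (fun i => p i.castSucc) (fun i => hp _)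
      obtain ⟨S', hS', hSp'⟩ := hp (Fin.last n)
      obtain ⟨S'', hS'', h1, h2⟩ := I.directed S hS S' hS'
      refine ⟨S'', hS'', fun i => ?_⟩
      refine Fin.lastCases ?_ (fun i => ?_) i
      · exact h2 hSp'
      · exact h1 (hSp i)
  refine ⟨{q | ∃ S : P, S ∈ I ∧ q ∈ S.1}, ?_, ?_, ?_⟩
  · intro ι _ p hp φ
    obtain ⟨n, ⟨e⟩⟩ := Finite.exists_equiv_fin ι
    obtain ⟨S, -, hS⟩ := hfinite n (fun i => p (e.symm i)) (fun i => hp _)
    exact S.2.2 ι p (fun i => by simpa using hS (e i)) φ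
  · intro a
    obtain ⟨S, ⟨b, hb⟩, hS⟩ := Order.cofinal_meets_idealOfCofinals p0 D (Sum.inl a)
    exact ⟨b, S, hS, hb⟩
  · intro k
    obtain ⟨S, ⟨a, ha⟩, hS⟩ := Order.cofinal_meets_idealOfCofinals p0 D (Sum.inr k)
    exact ⟨a, S, hS, ha⟩

/-- an elementary map from `M` into `N` whose image contains countably many given points -/
theorem exists_elem [Countable M] (hfin : FinTypes L M) (hMN : ∀ φ : L.Sentence, M ⊨ φ ↔ N ⊨ φ)
    {κ : Type*} [Countable κ] (v : κ → N) :
    ∃ f : M → N, (∀ (ι : Type) [Finite ι] (x : ι → M) (φ : L.Formula ι),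
      φ.Realize x ↔ φ.Realize (f ∘ x)) ∧ Function.Injective f ∧ ∀ k, ∃ a, f a = v k := by
  obtain ⟨G, hG, h1, h2⟩ := exists_pp hfin hMN v
  choose f hf using h1
  have hfun : ∀ a b a' b', (a, b) ∈ G → (a', b') ∈ G → (a = a' ↔ b = b') := by
    intro a b a' b' h h'
    have := hG (Fin 2) ![(a, b), (a', b')] (by
      intro i
      fin_cases i
      · exact h
      · exact h') ((Term.var (0 : Fin 2)).equal (Term.var (1 : Fin 2)))
    simpa [Formula.realize_equal] using this
  refine ⟨f, fun ι _ x φ => hG ι (fun i => (x i, f (x i))) (fun i => hf _) φ,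
    fun a a' h => (hfun a (f a) a' (f a') (hf a) (hf a')).2 h, fun k => ?_⟩
  obtain ⟨a, ha⟩ := h2 k
  exact ⟨a, (hfun a (f a) a _ (hf a) ha).1 rfl⟩

theorem iso [L.IsRelational] [Countable M] [Countable N] (hfin : FinTypes L M)
    (hMN : ∀ φ : L.Sentence, M ⊨ φ ↔ N ⊨ φ) : Nonempty (M ≃[L] N) := by
  obtain ⟨f, h1, h2, h3⟩ := exists_elem hfin hMN (id : N → N)
  refine ⟨{ toEquiv := Equiv.ofBijective f ⟨h2, h3⟩, map_fun' := ?_, map_rel' := ?_ }⟩
  · intro n g
    exact isEmptyElim g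
  · intro n r x
    have := h1 (Fin n) x (r.formula (fun i => Term.var i))
    rw [Formula.realize_rel, Formula.realize_rel] at this
    exact this.symm

theorem categorical [L.IsRelational] [Countable M] [Nonempty M] (hfin : FinTypes L M) :
    Cardinal.Categorical.{0, 0, w} Cardinal.aleph0 (L.completeTheory M) := by
  intro M₁ M₂ h₁ h₂
  have e : ∀ K : Theory.ModelType.{0, 0, w} (L.completeTheory M),
      Cardinal.mk K = Cardinal.aleph0 → Nonempty (M ≃[L] K) := by
    intro K hK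
    haveI : Countable K := Cardinal.mk_le_aleph0_iff.1 hK.le
    exact iso hfin (fun φ => (realize_iff_of_model_completeTheory M K φ).symm)
  obtain ⟨e₁⟩ := e M₁ h₁
  obtain ⟨e₂⟩ := e M₂ h₂
  exact ⟨e₂.comp e₁.symm⟩

end Pool.Agent.H731Z.Ex.RN
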