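import Pool.Agent.H731Z.Ex.Star
import Pool.Agent.H731Z.Ex.RN
import Pool.Agent.H731Z.Ex.Defs

/-! The generic structure as a first-order structure. -/

namespace Pool.Agent.H731Z.Ex

open FirstOrder FirstOrder.Language Sp

universe w

inductive Sym : ℕ → Type
  | E : Sym 2
  | J : Sym 2
  | R : Sym 3

def lang : FirstOrder.Language.{0, 0} := ⟨fun _ => Empty, Sym⟩

instance : lang.IsRelational := fun _ => inferInstanceAs (IsEmpty Empty)

instance (n : ℕ) : Countable (Sym n) := by
  refine ⟨fun r => match r with | .E => 0 | .J => 1 | .R => 2, ?_⟩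
  intro r s h
  cases r <;> cases s <;> simp_all

lemma lang_countable : Countable lang.Symbols := by
  have : ∀ n, Countable (lang.Functions n) := fun _ => inferInstanceAs (Countable Empty)
  have : ∀ n, Countable (lang.Relations n) := fun n => inferInstanceAs (Countable (Sym n))
  unfold Symbols
  infer_instance

def MM (_ : Str ℕ) : Type := ℕ

variable {M : Str ℕ}

instance : Countable (MM M) := inferInstanceAs (Countable ℕ)
instance : Infinite (MM M) := inferInstanceAs (Infinite ℕ)

instance : lang.Structure (MM M) where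
  funMap f := f.elim
  RelMap r v := match r, v with
    | .E, v => M.E (v 0) (v 1)
    | .J, v => M.J (v 0) (v 1)
    | .R, v => M.R (v 0) (v 1) (v 2)

def autEquiv {σ : ℕ ≃ ℕ} (h : IsAut M σ) : MM M ≃[lang] MM M where
  toEquiv := σ
  map_fun' f := f.elim
  map_rel' r v := by
    cases r
    · exact h.E _ _
    · exact h.J _ _
    · exact h.R _ _ _

lemma realize_aut {σ : ℕ ≃ ℕ} (h : IsAut M σ) {ι : Type} (φ : lang.Formula ι) (x : ι → MM M) :
    φ.Realize (M := MM M) (σ ∘ x) ↔ φ.Realize x :=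
  StrongHomClass.realize_formula (autEquiv h) φ

lemma finTypes (hM : Gen M) : RN.FinTypes lang (MM M) := by
  intro ι _
  obtain ⟨F, hF, inv, h⟩ := hM.orbits ι
  refine ⟨F, hF, inv, fun x y e φ => ?_⟩
  obtain ⟨σ, s1, s2⟩ := h x y e
  rw [← realize_aut s1 φ x]
  have : (σ ∘ x : ι → MM M) = y := funext s2
  rw [this]

lemma nsop_M (hM : Gen M) : ¬ HasSOP lang (MM M) := by
  rintro ⟨n, m, φ, b, hb⟩
  refine hM.no_chain' (β := Fin m) (fun c d => {x : Fin n → MM M | φ.Realize (Sum.elim x c)} ⊂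
      {x : Fin n → MM M | φ.Realize (Sum.elim x d)}) (fun _ _ _ => ssubset_trans)
      (fun _ => ssubset_irrefl _) ?_ b hb
  intro σ hσ c d h
  have e : ∀ (c : Fin m → ℕ) (x y : Fin n → MM M), (∀ i, σ (y i) = x i) →
      (φ.Realize (M := MM M) (Sum.elim x (σ ∘ c)) ↔ φ.Realize (M := MM M) (Sum.elim y c)) := by
    intro c x y hxy
    rw [← realize_aut hσ φ (Sum.elim y c)]
    congr! 1
    funext i
    rcases i with i | i
    · exact (hxy i).symm
    · rfl
  refine ⟨fun x hx => ?_, fun hc => h.2 fun x hx => ?_⟩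
  · have h1 : ∀ i, σ (σ.symm (x i)) = x i := fun i => σ.apply_symm_apply _
    exact (e d x _ h1).2 (h.1 ((e c x _ h1).1 hx))
  · exact (e c (fun i => σ (x i)) x fun _ => rfl).1
      (hc ((e d (fun i => σ (x i)) x fun _ => rfl).2 hx))

variable {N : Type w} [lang.Structure N]

lemma nsop_N (hM : Gen M) (hMN : ∀ φ : lang.Sentence, MM M ⊨ φ ↔ N ⊨ φ) : ¬ HasSOP lang N := by
  rintro ⟨n, m, φ, b, hb⟩
  have hw : ∀ i, ∃ z : Fin n → N, φ.Realize (Sum.elim z (b (i + 1))) ∧
      ¬ φ.Realize (Sum.elim z (b i)) := fun i => Set.exists_of_ssubset (hb i)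
  choose z hz hz' using hw
  obtain ⟨f, f1, -, f3⟩ := RN.exists_elem (finTypes hM) hMN
    (fun p : ℕ × (Fin n ⊕ Fin m) => Sum.elim (z p.1) (b p.1) p.2)
  choose g hg using f3
  have e : ∀ (x : Fin n → MM M) (i : ℕ), φ.Realize (Sum.elim x fun t => g (i, Sum.inr t)) ↔
      φ.Realize (Sum.elim (f ∘ x) (b i)) := by
    intro x i
    rw [f1]
    congr! 1
    funext t
    rcases t with t | t
    · rfl
    · exact hg (i, Sum.inr t)
  refine nsop_M hM ⟨n, m, φ, fun i t => g (i, Sum.inr t), fun i => ⟨fun x hx => ?_, fun hc => ?_⟩⟩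
  · exact (e x _).2 ((hb i).1 ((e x i).1 hx))
  · have h1 : f ∘ (fun t => g (i, Sum.inl t)) = z i := funext fun t => hg (i, Sum.inl t)
    have h2 := hc (a := fun t => g (i, Sum.inl t)) ((e _ _).2 (by rw [h1]; exact hz i))
    have h3 := (e _ _).1 h2
    rw [h1] at h3
    exact hz' i h3

/-- the formula saying that the first parameter picks the second one under the variable -/
def pick : lang.Formula (Fin 1 ⊕ Fin 2) :=
  Relations.formula (L := lang) Sym.R
    ![Term.var (Sum.inl 0), Term.var (Sum.inr 0), Term.var (Sum.inr 1)]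

lemma realize_pick (v : Fin 1 ⊕ Fin 2 → MM M) :
    pick.Realize v ↔ M.R (v (Sum.inl 0)) (v (Sum.inr 0)) (v (Sum.inr 1)) := by
  unfold pick
  rw [Formula.realize_rel]
  rfl

lemma divides_N (hMN : ∀ φ : lang.Sentence, MM M ⊨ φ ↔ N ⊨ φ) {f : MM M → N}
    (f1 : ∀ (ι : Type) [Finite ι] (x : ι → MM M) (φ : lang.Formula ι),
      φ.Realize x ↔ φ.Realize (f ∘ x)) {a : ℕ} {b : ℕ → ℕ} (h : IsStar M a b) :
    Divides (∅ : Set N) pick ![f a, f (b 0)] := by
  let c : ℕ → Fin 2 → MM M := fun i => ![a, b i]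
  have hc : ∀ i, f ∘ c i = ![f a, f (b i)] := fun i => funext fun t => by
    fin_cases t <;> rfl
  refine ⟨fun i => f ∘ c i, hc 0, fun n s t hs ht φ => ?_, Finset.range 5, ?_⟩
  · let ψ : lang.Formula (Fin n × Fin 2) :=
      φ.relabel (Sum.elim (fun a => a.2.elim) id)
    have e : ∀ s : Fin n → ℕ, φ.Realize (Sum.elim (fun a : (∅ : Set N) => (a : N))
        fun p : Fin n × Fin 2 => (f ∘ c (s p.1)) p.2) ↔
          ψ.Realize fun p : Fin n × Fin 2 => c (s p.1) p.2 := by
      intro s
      rw [f1, Formula.realize_relabel]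
      congr! 1
      funext i
      rcases i with i | i
      · exact i.2.elim
      · rfl
    rw [e, e]
    obtain ⟨σ, s1, s2, s3⟩ := h.1 n s t hs ht
    rw [← realize_aut s1]
    congr! 1
    funext ⟨i, k⟩
    fin_cases k
    · exact s2
    · exact s3 i
  · rintro ⟨x, hx⟩
    let θ : lang.Formula (Fin 1 ⊕ (Fin 5 × Fin 2)) :=
      Formula.iInf fun i : Fin 5 => pick.relabel (Sum.map id fun k => (i, k))
    let χ : lang.Formula (Fin 5 × Fin 2) := (θ.relabel Sum.swap).iExs (Fin 1)
    have h1 : χ.Realize (f ∘ fun p : Fin 5 × Fin 2 => c p.1 p.2) := by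
      rw [Formula.realize_iExs]
      refine ⟨x, ?_⟩
      rw [Formula.realize_relabel, Formula.realize_iInf]
      intro i
      rw [Formula.realize_relabel]
      convert hx i (Finset.mem_range.2 i.2) using 1
      funext t
      rcases t with t | t <;> rfl
    rw [← f1, Formula.realize_iExs] at h1
    obtain ⟨y, hy⟩ := h1
    rw [Formula.realize_relabel, Formula.realize_iInf] at hy
    refine h.2 (y 0) fun i hi => ?_
    have := hy ⟨i, Finset.mem_range.1 hi⟩
    rw [Formula.realize_relabel, realize_pick] at this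
    exact this

lemma forks_N (hM : Gen M) (hMN : ∀ φ : lang.Sentence, MM M ⊨ φ ↔ N ⊨ φ) (a : Fin 1 → N) :
    TypeForks lang (∅ : Set N) a := by
  obtain ⟨c, b, b', s1, s2, e, hR⟩ := hM.two_stars
  obtain ⟨f, f1, -, -⟩ := RN.exists_elem (finTypes hM) hMN (κ := Empty) fun k => k.elim
  refine ⟨0, ⊤, Fin.elim0, fun i => i.elim0, by simp, 2, fun _ => 2, fun _ => pick,
    ![![f c, f (b 0)], ![f (b 0), f c] ], ?_, fun x _ => ?_⟩
  · intro j
    fin_cases j
    · exact divides_N hMN f1 s1
    · have := divides_N hMN f1 s2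
      rw [e] at this
      exact this
  · let θ : lang.Formula (Fin 1 ⊕ Fin 2) := pick ⊔ pick.relabel (Sum.map id ![1, 0])
    let χ : lang.Formula (Fin 2) := (θ.relabel Sum.swap).iAlls (Fin 1)
    have h1 : χ.Realize (M := MM M) ![c, b 0] := by
      rw [Formula.realize_iAlls]
      intro y
      rw [Formula.realize_relabel, Formula.realize_sup, Formula.realize_relabel, realize_pick,
        realize_pick]
      exact hR (y 0)
    rw [f1, Formula.realize_iAlls] at h1
    have h2 := h1 x
    rw [Formula.realize_relabel, Formula.realize_sup, Formula.realize_relabel] at h2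
    rcases h2 with h2 | h2
    · refine ⟨0, ?_⟩
      convert h2 using 1
      funext t
      rcases t with t | t
      · rfl
      · fin_cases t <;> rfl
    · refine ⟨1, ?_⟩
      convert h2 using 1
      funext t
      rcases t with t | t
      · rfl
      · fin_cases t <;> rfl

theorem final : ∃ (L : FirstOrder.Language.{0, 0}) (T : L.Theory),
    Countable L.Symbols ∧ T.IsComplete ∧
    (∃ M : Theory.ModelType.{0, 0, w} T, Cardinal.mk M = Cardinal.aleph0) ∧
    Cardinal.Categorical.{0, 0, w} Cardinal.aleph0 T ∧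
    ∀ N : Theory.ModelType.{0, 0, w} T, Infinite N ∧ ¬ HasSOP L N ∧
      ∀ a : Fin 1 → N, TypeForks L (∅ : Set N) a := by
  obtain ⟨M, hM⟩ := exists_gen
  refine ⟨lang, lang.completeTheory (MM M), lang_countable, completeTheory.isComplete _ _,
    ⟨(Theory.ModelType.of _ (MM M)).ulift.{0, 0, 0, w}, ?_⟩, RN.categorical (finTypes hM),
    fun N => ?_⟩
  · change Cardinal.mk (ULift.{w} ℕ) = _
    simp
  · have hMN : ∀ φ : lang.Sentence, MM M ⊨ φ ↔ N ⊨ φ :=
      fun φ => (realize_iff_of_model_completeTheory (MM M) N φ).symm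
    obtain ⟨f, -, f2, -⟩ := RN.exists_elem (finTypes hM) hMN (κ := Empty) fun k => k.elim
    exact ⟨Infinite.of_injective f f2, nsop_N hM hMN, forks_N hM hMN⟩

end Pool.Agent.H731Z.Ex
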