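import Pool.Agent.H731Z.Ex.Comb

/-! The generic structure: existence, extension property, homogeneity. -/

set_option linter.unusedSectionVars false

namespace Pool.Agent.H731Z.Ex.Sp

open Finset

variable {U V : Type} [DecidableEq U] [DecidableEq V]

def Closed (M : Str U) (A : Finset U) : Prop := ∀ Y, A ⊆ Y → Y ≠ A → M.δ A < M.δ Y

lemma Closed.cl {M : Str U} {A : Finset U} (h : Closed M A) (W : Finset U) : Cl M A W :=
  fun Y h1 _ h3 => h Y h1 h3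

lemma Closed.of_cl {M : Str U} {A B : Finset U} (h1 : Cl M A B) (hAB : A ⊆ B) (h2 : Closed M B) :
    Closed M A := fun Y hY hne =>
  (h1.trans (h2.cl (B ∪ Y)) hAB subset_union_left) Y hY subset_union_right hne

lemma Closed.le {M : Str U} {A Y : Finset U} (h : Closed M A) (hY : A ⊆ Y) : M.δ A ≤ M.δ Y :=
  (h.cl Y).wcl Y hY Subset.rfl

lemma Good.cl_empty {S : Str U} {W : Finset U} (h : Good S W) : Cl S ∅ W := by
  intro Y _ hY hne
  rw [δ_empty]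
  obtain ⟨h1, h2⟩ := h.ctl Y hY
  by_contra hc
  have h3 : S.δ Y = 0 := by omega
  rw [h3] at h2
  have h4 : 0 < Y.card := card_pos.2 (nonempty_iff_ne_empty.2 hne)
  have h5 : (S.edges Y).card ≤ (Y ×ˢ Y).card :=
    card_le_card fun p hp => mem_product.2 ⟨(mem_edges.1 hp).1, (mem_edges.1 hp).2.1⟩
  have h6 : Y.card = 1 := by simp at h2; omega
  rw [card_product, h6] at h5
  unfold Str.δ at h3
  omega

/-- an injection extending `g` with new values outside a finite set -/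
lemma exists_fresh (W A : Finset V) (g : V → ℕ) (W1 : Finset ℕ)
    (hg : ∀ a ∈ A, ∀ b ∈ A, g a = g b → a = b) (hA : ∀ a ∈ A, g a ∈ W1) :
    ∃ h : V → ℕ, (∀ a ∈ W, ∀ b ∈ W, h a = h b → a = b) ∧ (∀ a ∈ A, h a = g a) ∧
      ∀ a ∈ W, h a ∈ W1 → a ∈ A := by
  let e : V → ℕ := fun v => if hv : v ∈ W then (W.equivFin ⟨v, hv⟩ : ℕ) else 0
  have he : ∀ a ∈ W, ∀ b ∈ W, e a = e b → a = b := by
    intro a ha b hb hab
    simp only [e, ha, hb, dif_pos] at hab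
    exact congrArg Subtype.val (W.equivFin.injective (Fin.ext hab))
  have hbig : ∀ n, W1.sup id + 1 + n ∉ W1 := fun n hn => by
    have := le_sup (f := id) hn
    simp only [id] at this
    omega
  refine ⟨fun v => if v ∈ A then g v else W1.sup id + 1 + e v, ?_, ?_, ?_⟩
  · intro a ha b hb hab
    by_cases h1 : a ∈ A <;> by_cases h2 : b ∈ A <;> simp only [h1, h2, if_true, if_false] at hab
    · exact hg a h1 b h2 hab
    · exact absurd (hab ▸ hA a h1) (hbig _)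
    · exact absurd (hab ▸ hA b h2) (hbig _)
    · exact he a ha b hb (by omega)
  · intro a ha; simp [ha]
  · intro a _ hh
    by_contra h1
    simp only [h1, if_false] at hh
    exact hbig _ hh

lemma inter_fresh {W A : Finset V} {g h : V → ℕ} {W1 : Finset ℕ} (hAW : A ⊆ W)
    (hA : ∀ a ∈ A, g a ∈ W1) (h2 : ∀ a ∈ A, h a = g a) (h3 : ∀ a ∈ W, h a ∈ W1 → a ∈ A) :
    W1 ∩ W.image h = A.image h := by
  ext n
  simp only [mem_inter, mem_image]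
  constructor
  · rintro ⟨hn, a, ha, rfl⟩
    exact ⟨a, h3 a ha hn, rfl⟩
  · rintro ⟨a, ha, rfl⟩
    exact ⟨by rw [h2 a ha]; exact hA a ha, a, hAW ha, rfl⟩

/-- setting up an amalgamation problem inside the natural numbers -/
lemma prob_of {S1 : Str ℕ} {W1 : Finset ℕ} {B : Str V} {W A : Finset V} {h : V → ℕ}
    {τ1 : ℕ → ℕ → Prop} {τ : V → V → Prop}
    (g1 : Good S1 W1) (g2 : Good B W) (hAW : A ⊆ W)
    (hinj : ∀ a ∈ W, ∀ b ∈ W, h a = h b → a = b) (hint : W1 ∩ W.image h = A.image h)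
    (hiso : Iso B S1 h A) (c1 : Cl S1 (A.image h) W1) (c2 : Cl B A W)
    (o1 : Ori S1 (A.image h) W1 τ1) (o2 : Ori B A W τ) :
    Prob S1 (B.push h W) W1 (W.image h) τ1 fun u v => ∃ a b, τ a b ∧ h a = u ∧ h b = v := by
  have hp := iso_push B hinj
  refine ⟨?_, g1, hp.good g2, by rwa [hint], by rw [hint]; exact hp.cl hAW c2, by rwa [hint],
    by rw [hint]; exact o2.push hAW hp⟩
  rw [hint]
  refine ⟨fun _ _ _ _ e => e, ?_, ?_, ?_⟩
  · simp only [mem_image, id]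
    rintro _ ⟨a, ha, rfl⟩ _ ⟨b, hb, rfl⟩
    rw [hp.E a (hAW ha) b (hAW hb), hiso.E a ha b hb]
  · simp only [mem_image, id]
    rintro _ ⟨a, ha, rfl⟩ _ ⟨b, hb, rfl⟩
    rw [hp.J a (hAW ha) b (hAW hb), hiso.J a ha b hb]
  · simp only [mem_image, id]
    rintro _ ⟨x, hx, rfl⟩ _ ⟨a, ha, rfl⟩ _ ⟨b, hb, rfl⟩
    rw [hp.R x (hAW hx) a (hAW ha) b (hAW hb), hiso.R x hx a ha b hb]

def P : Type := {p : Finset ℕ × Str ℕ // Good p.2 p.1}

instance : Preorder P where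
  le p q := p.1.1 ⊆ q.1.1 ∧ Iso p.1.2 q.1.2 id p.1.1 ∧ Cl q.1.2 p.1.1 q.1.1
  le_refl p := ⟨Subset.rfl, Iso.refl _ _, Cl.refl _ _⟩
  le_trans p q r h1 h2 := ⟨h1.1.trans h2.1, h1.2.1.comp h2.2.1 fun a ha => h1.1 ha,
    (h2.2.1.cl_id h1.1 h1.2.2).trans h2.2.2 h1.1 h2.1⟩

lemma P.le_def {p q : P} :
    p ≤ q ↔ p.1.1 ⊆ q.1.1 ∧ Iso p.1.2 q.1.2 id p.1.1 ∧ Cl q.1.2 p.1.1 q.1.1 := Iff.rfl

lemma P.step (p : P) {B : Str V} {W A : Finset V} {g : V → ℕ} (hAW : A ⊆ W) (g2 : Good B W)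
    (c2 : Cl B A W) (hiso : Iso B p.1.2 g A) (hA : ∀ a ∈ A, g a ∈ p.1.1)
    (c1 : Cl p.1.2 (A.image g) p.1.1) :
    ∃ q : P, p ≤ q ∧ ∃ j : V → ℕ, Iso B q.1.2 j W ∧ (∀ a ∈ A, j a = g a) ∧ W.image j ⊆ q.1.1 ∧
      Cl q.1.2 (W.image j) q.1.1 := by
  obtain ⟨h, h1, h2, h3⟩ := exists_fresh W A g p.1.1 hiso.inj hA
  have e : A.image g = A.image h := image_congr fun a ha => (h2 a ha).symm
  rw [e] at c1
  have hs : A.image h ⊆ p.1.1 := by
    intro n hn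
    obtain ⟨a, ha, rfl⟩ := mem_image.1 hn
    rw [h2 a ha]; exact hA a ha
  obtain ⟨τ1, o1⟩ := exists_ori hs c1.wcl
  obtain ⟨τ, o2⟩ := exists_ori hAW c2.wcl
  have pr := prob_of p.2 g2 hAW h1 (inter_fresh hAW hA h2 h3) (hiso.congr h2) c1 c2 o1 o2
  refine ⟨⟨(_, _), pr.good⟩, ⟨subset_union_left, pr.iso1, pr.cl_left⟩, h, ?_, h2,
    subset_union_right, pr.cl_right⟩
  exact (iso_push B h1).comp pr.iso2 fun a ha => mem_image_of_mem h ha

def emptyStr (U : Type) : Str U := ⟨fun _ _ => False, fun _ _ => False, fun _ _ _ => False⟩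

lemma δ_emptyStr (X : Finset U) : (emptyStr U).δ X = 4 * X.card := by
  have : (emptyStr U).edges X = ∅ := by
    ext p; simp [mem_edges, emptyStr]
  simp [Str.δ, this]

lemma good_emptyStr (W : Finset U) : Good (emptyStr U) W := by
  refine ⟨fun _ _ _ _ _ _ h => h.elim, fun _ _ _ _ _ _ _ _ h => h 0, fun X _ => ?_⟩
  rw [δ_emptyStr]
  refine ⟨by positivity, ?_⟩
  have : (4 * (X.card : ℤ)).toNat = 4 * X.card := by omega
  rw [this]
  exact le_trans (by omega) (Nat.lt_two_pow_self (n := 4 * X.card)).le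

lemma P.grow (p : P) (X : Finset ℕ) : ∃ q : P, p ≤ q ∧ X ⊆ q.1.1 := by
  have hd : p.1.1 ∩ (X \ p.1.1) = ∅ := by
    ext a; simp only [mem_inter, mem_sdiff, notMem_empty]; tauto
  obtain ⟨τ1, o1⟩ := exists_ori (empty_subset _) p.2.cl_empty.wcl
  obtain ⟨τ2, o2⟩ := exists_ori (empty_subset _) (good_emptyStr (X \ p.1.1)).cl_empty.wcl
  have pr : Prob p.1.2 (emptyStr ℕ) p.1.1 (X \ p.1.1) τ1 τ2 := by
    refine ⟨?_, p.2, good_emptyStr _, ?_, ?_, ?_, ?_⟩ <;> rw [hd]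
    · exact ⟨by simp, by simp, by simp, by simp⟩
    · exact p.2.cl_empty
    · exact (good_emptyStr _).cl_empty
    · exact o1
    · exact o2
  refine ⟨⟨(_, _), pr.good⟩, ⟨subset_union_left, pr.iso1, pr.cl_left⟩, ?_⟩
  intro a ha
  simp only [mem_union, mem_sdiff]
  tauto

structure Gen (M : Str ℕ) : Prop where
  good : ∀ W, Good M W
  ext0 : ∀ (B : Str ℕ) (W A : Finset ℕ), A ⊆ W → Good B W → Cl B A W → Iso B M id A →
    Closed M A → ∃ j : ℕ → ℕ, Iso B M j W ∧ (∀ a ∈ A, j a = a) ∧ Closed M (W.image j)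

abbrev Req : Type := Finset ℕ × Finset ℕ × Finset (ℕ × ℕ) × Finset (ℕ × ℕ) × Finset (ℕ × ℕ × ℕ)

def Req.str (r : Req) : Str ℕ :=
  ⟨fun a b => (a, b) ∈ r.2.2.1, fun a b => (a, b) ∈ r.2.2.2.1, fun x a b => (x, a, b) ∈ r.2.2.2.2⟩

lemma exists_req (B : Str ℕ) (W A : Finset ℕ) :
    ∃ r : Req, r.1 = W ∧ r.2.1 = A ∧ Iso B r.str id W := by
  classical
  refine ⟨(W, A, (W ×ˢ W).filter fun p => B.E p.1 p.2, (W ×ˢ W).filter fun p => B.J p.1 p.2,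
    (W ×ˢ W ×ˢ W).filter fun p => B.R p.1 p.2.1 p.2.2), rfl, rfl, fun _ _ _ _ e => e, ?_, ?_, ?_⟩
  · intro a ha b hb; simp [Req.str, ha, hb]
  · intro a ha b hb; simp [Req.str, ha, hb]
  · intro x hx a ha b hb; simp [Req.str, ha, hb, hx]

def Req.dense (r : Req) : Order.Cofinal P where
  carrier := {p | r.2.1 ⊆ p.1.1 ∧ (r.2.1 ⊆ r.1 → Good r.str r.1 → Cl r.str r.2.1 r.1 →
    Iso r.str p.1.2 id r.2.1 → Cl p.1.2 r.2.1 p.1.1 →
      ∃ j : ℕ → ℕ, Iso r.str p.1.2 j r.1 ∧ (∀ a ∈ r.2.1, j a = a) ∧ r.1.image j ⊆ p.1.1 ∧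
        Cl p.1.2 (r.1.image j) p.1.1)}
  isCofinal := by
    intro p0
    obtain ⟨p, hp, hX⟩ := p0.grow r.2.1
    by_cases hyp : r.2.1 ⊆ r.1 ∧ Good r.str r.1 ∧ Cl r.str r.2.1 r.1 ∧
      Iso r.str p.1.2 id r.2.1 ∧ Cl p.1.2 r.2.1 p.1.1
    · obtain ⟨h1, h2, h3, h4, h5⟩ := hyp
      obtain ⟨q, hq, j, hj⟩ := p.step h1 h2 h3 h4 (fun a ha => hX ha) (by simpa using h5)
      exact ⟨q, ⟨hX.trans hq.1, fun _ _ _ _ _ => ⟨j, hj⟩⟩, hp.trans hq⟩
    · exact ⟨p, ⟨hX, fun h1 h2 h3 h4 h5 => absurd ⟨h1, h2, h3, h4, h5⟩ hyp⟩, hp⟩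

theorem exists_gen : ∃ M, Gen M := by
  have := Encodable.ofCountable Req
  let p0 : P := ⟨(∅, emptyStr ℕ), good_emptyStr _⟩
  let I := Order.idealOfCofinals p0 Req.dense
  let M : Str ℕ := ⟨fun a b => ∃ p ∈ I, a ∈ p.1.1 ∧ b ∈ p.1.1 ∧ p.1.2.E a b,
    fun a b => ∃ p ∈ I, a ∈ p.1.1 ∧ b ∈ p.1.1 ∧ p.1.2.J a b,
    fun x a b => ∃ p ∈ I, x ∈ p.1.1 ∧ a ∈ p.1.1 ∧ b ∈ p.1.1 ∧ p.1.2.R x a b⟩
  have hiso : ∀ p ∈ I, Iso p.1.2 M id p.1.1 := by
    intro p hp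
    refine ⟨fun _ _ _ _ e => e, fun a ha b hb => ⟨?_, fun h => ⟨p, hp, ha, hb, h⟩⟩,
      fun a ha b hb => ⟨?_, fun h => ⟨p, hp, ha, hb, h⟩⟩,
      fun x hx a ha b hb => ⟨?_, fun h => ⟨p, hp, hx, ha, hb, h⟩⟩⟩
    · rintro ⟨q, hq, h1, h2, h3⟩
      obtain ⟨r, -, hr1, hr2⟩ := I.directed p hp q hq
      exact (hr1.2.1.E a ha b hb).1 ((hr2.2.1.E a h1 b h2).2 h3)
    · rintro ⟨q, hq, h1, h2, h3⟩
      obtain ⟨r, -, hr1, hr2⟩ := I.directed p hp q hq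
      exact (hr1.2.1.J a ha b hb).1 ((hr2.2.1.J a h1 b h2).2 h3)
    · rintro ⟨q, hq, h0, h1, h2, h3⟩
      obtain ⟨r, -, hr1, hr2⟩ := I.directed p hp q hq
      exact (hr1.2.1.R x hx a ha b hb).1 ((hr2.2.1.R x h0 a h1 b h2).2 h3)
  have hcov : ∀ X : Finset ℕ, ∃ p ∈ I, X ⊆ p.1.1 := by
    intro X
    obtain ⟨p, h1, h2⟩ := Order.cofinal_meets_idealOfCofinals p0 Req.dense (∅, X, ∅, ∅, ∅)
    exact ⟨p, h2, h1.1⟩
  have hcl : ∀ p ∈ I, Closed M p.1.1 := by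
    intro p hp Y hY hne
    obtain ⟨q, hq, hYq⟩ := hcov Y
    obtain ⟨r, hr, hr1, hr2⟩ := I.directed p hp q hq
    exact (hiso r hr).cl_id hr1.1 hr1.2.2 Y hY (hYq.trans hr2.1) hne
  refine ⟨M, fun W => ?_, fun B W A hAW hg hc hi hM => ?_⟩
  · obtain ⟨p, hp, hW⟩ := hcov W
    exact ((hiso p hp).good_id p.2).mono hW
  · obtain ⟨r, rfl, rfl, hr⟩ := exists_req B W A
    obtain ⟨p, ⟨h1, h2⟩, hp⟩ := Order.cofinal_meets_idealOfCofinals p0 Req.dense r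
    have i1 : Iso r.str p.1.2 id r.2.1 :=
      ((hr.mono hAW).symm_id.comp hi fun a ha => ha).comp ((hiso p hp).mono h1).symm_id
        fun a ha => ha
    have c1 : Cl p.1.2 r.2.1 p.1.1 := (hiso p hp).symm_id.cl_id h1 (hM.cl _)
    obtain ⟨j, j1, j2, j3, j4⟩ := h2 hAW (hr.good_id hg) (hr.cl_id hAW hc) i1 c1
    refine ⟨j, ?_, j2, Closed.of_cl ((hiso p hp).cl_id j3 j4) j3 (hcl p hp)⟩
    exact (hr.comp j1 fun a ha => ha).comp (hiso p hp) fun a ha => j3 (mem_image_of_mem j ha)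

variable {M : Str ℕ}

lemma Gen.ext (hM : Gen M) {B : Str V} {W A : Finset V} {g : V → ℕ} (hAW : A ⊆ W)
    (hg : Good B W) (hc : Cl B A W) (hi : Iso B M g A) (hcl : Closed M (A.image g)) :
    ∃ j : V → ℕ, Iso B M j W ∧ (∀ a ∈ A, j a = g a) ∧ Closed M (W.image j) := by
  obtain ⟨h, h1, h2, -⟩ := exists_fresh W A g (A.image g) hi.inj fun a ha => mem_image_of_mem g ha
  have hp := iso_push B h1
  have e : A.image g = A.image h := image_congr fun a ha => (h2 a ha).symm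
  have i1 : Iso (B.push h W) M id (A.image h) := by
    refine ⟨fun _ _ _ _ e => e, ?_, ?_, ?_⟩
    · simp only [mem_image, id]
      rintro _ ⟨a, ha, rfl⟩ _ ⟨b, hb, rfl⟩
      rw [hp.E a (hAW ha) b (hAW hb), h2 a ha, h2 b hb, hi.E a ha b hb]
    · simp only [mem_image, id]
      rintro _ ⟨a, ha, rfl⟩ _ ⟨b, hb, rfl⟩
      rw [hp.J a (hAW ha) b (hAW hb), h2 a ha, h2 b hb, hi.J a ha b hb]
    · simp only [mem_image, id]
      rintro _ ⟨x, hx, rfl⟩ _ ⟨a, ha, rfl⟩ _ ⟨b, hb, rfl⟩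
      rw [hp.R x (hAW hx) a (hAW ha) b (hAW hb), h2 x hx, h2 a ha, h2 b hb, hi.R x hx a ha b hb]
  obtain ⟨j, j1, j2, j3⟩ := hM.ext0 (B.push h W) (W.image h) (A.image h) (image_subset_image hAW)
    (hp.good hg) (hp.cl hAW hc) i1 (e ▸ hcl)
  refine ⟨j ∘ h, hp.comp j1 fun a ha => mem_image_of_mem h ha, fun a ha => ?_, ?_⟩
  · rw [Function.comp_apply, j2 _ (mem_image_of_mem h ha), h2 a ha]
  · rwa [← image_image]

lemma Gen.exists_closure (hM : Gen M) (X : Finset ℕ) :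
    ∃ Y, X ⊆ Y ∧ Closed M Y ∧ ∀ Z, X ⊆ Z → M.δ Y ≤ M.δ Z := by
  classical
  have h1 : ∃ n : ℕ, ∃ Y, X ⊆ Y ∧ M.δ Y = n :=
    ⟨(M.δ X).toNat, X, Subset.rfl, by have := ((hM.good X).ctl X Subset.rfl).1; omega⟩
  have hmin : ∀ Z, X ⊆ Z → (Nat.find h1 : ℤ) ≤ M.δ Z := by
    intro Z hZ
    have h0 := ((hM.good Z).ctl Z Subset.rfl).1
    have := Nat.find_min' h1 (m := (M.δ Z).toNat) ⟨Z, hZ, by omega⟩
    omega
  let Q : ℕ → Prop := fun k => ∃ Y, X ⊆ Y ∧ M.δ Y = Nat.find h1 ∧ Y.card = k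
  have hQ : ∀ k, Q k → k ≤ 2 ^ Nat.find h1 := by
    rintro k ⟨Y, -, h2, rfl⟩
    have := ((hM.good Y).ctl Y Subset.rfl).2
    rwa [h2, Int.toNat_natCast] at this
  obtain ⟨Y0, y1, y2⟩ := Nat.find_spec h1
  have hq : Q Y0.card := ⟨Y0, y1, y2, rfl⟩
  obtain ⟨Y, a1, a2, a3⟩ : Q (Nat.findGreatest Q (2 ^ Nat.find h1)) :=
    Nat.findGreatest_spec (hQ _ hq) hq
  refine ⟨Y, a1, fun Z hZ hne => ?_, fun Z hZ => a2 ▸ hmin Z hZ⟩
  have b1 := hmin Z (a1.trans hZ)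
  by_contra hc
  have b2 : Q Z.card := ⟨Z, a1.trans hZ, by omega, rfl⟩
  have b3 := Nat.le_findGreatest (hQ _ b2) b2
  exact hne (eq_of_subset_of_card_le hZ (by omega)).symm

/-- automorphisms -/
structure IsAut (M : Str ℕ) (σ : ℕ ≃ ℕ) : Prop where
  E : ∀ a b, M.E (σ a) (σ b) ↔ M.E a b
  J : ∀ a b, M.J (σ a) (σ b) ↔ M.J a b
  R : ∀ x a b, M.R (σ x) (σ a) (σ b) ↔ M.R x a b

lemma IsAut.iso {σ : ℕ ≃ ℕ} (h : IsAut M σ) (W : Finset ℕ) : Iso M M σ W :=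
  ⟨fun _ _ _ _ e => σ.injective e, fun a _ b _ => h.E a b, fun a _ b _ => h.J a b,
    fun x _ a _ b _ => h.R x a b⟩

lemma IsAut.closed {σ : ℕ ≃ ℕ} (h : IsAut M σ) {A : Finset ℕ} (hA : Closed M A) :
    Closed M (A.image σ) := by
  intro Y hY hne
  have hsub : A ⊆ A ∪ Y.image σ.symm := subset_union_left
  refine (h.iso _).cl hsub (hA.cl _) Y hY (fun y hy => ?_) hne
  exact mem_image.2 ⟨σ.symm y, mem_union_right _ (mem_image_of_mem _ hy), by simp⟩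

def PI (M : Str ℕ) : Type :=
  {p : Finset ℕ × (ℕ → ℕ) // Closed M p.1 ∧ Iso M M p.2 p.1 ∧ Closed M (p.1.image p.2)}

instance : Preorder (PI M) where
  le p q := p.1.1 ⊆ q.1.1 ∧ ∀ a ∈ p.1.1, q.1.2 a = p.1.2 a
  le_refl p := ⟨Subset.rfl, fun _ _ => rfl⟩
  le_trans p q r h1 h2 := ⟨h1.1.trans h2.1, fun a ha => (h2.2 a (h1.1 ha)).trans (h1.2 a ha)⟩

lemma Gen.forth (hM : Gen M) (p : PI M) (a : ℕ) : ∃ q : PI M, p ≤ q ∧ a ∈ q.1.1 := by
  obtain ⟨W, w1, w2, -⟩ := hM.exists_closure (insert a p.1.1)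
  have hs : p.1.1 ⊆ W := (subset_insert _ _).trans w1
  obtain ⟨j, j1, j2, j3⟩ := hM.ext hs (hM.good W) (p.2.1.cl W) p.2.2.1 p.2.2.2
  exact ⟨⟨(W, j), w2, j1, j3⟩, ⟨hs, j2⟩, w1 (mem_insert_self _ _)⟩

lemma Gen.back (hM : Gen M) (p : PI M) (b : ℕ) :
    ∃ q : PI M, p ≤ q ∧ b ∈ q.1.1.image q.1.2 := by
  obtain ⟨g, hg⟩ := p.2.2.1.exists_inv
  have e : (p.1.1.image p.1.2).image g = p.1.1 := by
    rw [image_image]
    exact (image_congr fun a ha => hg a ha).trans image_id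
  let p' : PI M := ⟨(p.1.1.image p.1.2, g), p.2.2.2, p.2.2.1.inv hg, by rw [e]; exact p.2.1⟩
  obtain ⟨q', h1, h2⟩ := hM.forth p' b
  obtain ⟨f, hf⟩ := q'.2.2.1.exists_inv
  have e' : (q'.1.1.image q'.1.2).image f = q'.1.1 := by
    rw [image_image]
    exact (image_congr fun a ha => hf a ha).trans image_id
  refine ⟨⟨(q'.1.1.image q'.1.2, f), q'.2.2.2, q'.2.2.1.inv hf, by rw [e']; exact q'.2.1⟩,
    ⟨fun a ha => ?_, fun a ha => ?_⟩, ?_⟩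
  · have h3 := mem_image_of_mem p.1.2 ha
    exact mem_image.2 ⟨p.1.2 a, h1.1 h3, (h1.2 _ h3).trans (hg a ha)⟩
  · have h3 := mem_image_of_mem p.1.2 ha
    have h4 : q'.1.2 (p.1.2 a) = a := (h1.2 _ h3).trans (hg a ha)
    have h5 := hf _ (h1.1 h3)
    rw [h4] at h5
    exact h5
  · show b ∈ (q'.1.1.image q'.1.2).image f
    rw [e']; exact h2

theorem Gen.hom0 (hM : Gen M) {A : Finset ℕ} {f : ℕ → ℕ} (h1 : Closed M A) (h2 : Iso M M f A)
    (h3 : Closed M (A.image f)) : ∃ σ : ℕ ≃ ℕ, IsAut M σ ∧ ∀ a ∈ A, σ a = f a := by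
  let p0 : PI M := ⟨(A, f), h1, h2, h3⟩
  let D : ℕ ⊕ ℕ → Order.Cofinal (PI M) := fun c => match c with
    | Sum.inl a => ⟨{q | a ∈ q.1.1}, fun p => by
        obtain ⟨q, a1, a2⟩ := hM.forth p a
        exact ⟨q, a2, a1⟩⟩
    | Sum.inr b => ⟨{q | b ∈ q.1.1.image q.1.2}, fun p => by
        obtain ⟨q, a1, a2⟩ := hM.back p b
        exact ⟨q, a2, a1⟩⟩
  let I := Order.idealOfCofinals p0 D
  have hL : ∀ a, ∃ q ∈ I, a ∈ q.1.1 := fun a => by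
    obtain ⟨q, a1, a2⟩ := Order.cofinal_meets_idealOfCofinals p0 D (Sum.inl a)
    exact ⟨q, a2, a1⟩
  choose q hq hq' using hL
  let F : ℕ → ℕ := fun a => (q a).1.2 a
  have hF : ∀ p ∈ I, ∀ a ∈ p.1.1, F a = p.1.2 a := by
    intro p hp a ha
    obtain ⟨r, -, r1, r2⟩ := I.directed p hp (q a) (hq a)
    exact (r2.2 a (hq' a)).symm.trans (r1.2 a ha)
  have h3 : ∀ x a b, ∃ r ∈ I, x ∈ r.1.1 ∧ a ∈ r.1.1 ∧ b ∈ r.1.1 := by
    intro x a b
    obtain ⟨r, hr, r1, r2⟩ := I.directed _ (hq a) _ (hq b)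
    obtain ⟨s, hs, s1, s2⟩ := I.directed _ hr _ (hq x)
    exact ⟨s, hs, s2.1 (hq' x), s1.1 (r1.1 (hq' a)), s1.1 (r2.1 (hq' b))⟩
  have hinj : Function.Injective F := by
    intro a b e
    obtain ⟨r, hr, -, ha, hb⟩ := h3 a a b
    rw [hF r hr a ha, hF r hr b hb] at e
    exact r.2.2.1.inj a ha b hb e
  have hsurj : Function.Surjective F := by
    intro b
    obtain ⟨r, a1, a2⟩ := Order.cofinal_meets_idealOfCofinals p0 D (Sum.inr b)
    obtain ⟨a, ha, e⟩ := mem_image.1 a1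
    exact ⟨a, (hF r a2 a ha).trans e⟩
  refine ⟨Equiv.ofBijective F ⟨hinj, hsurj⟩, ⟨fun a b => ?_, fun a b => ?_, fun x a b => ?_⟩,
    fun a ha => hF p0 (Order.mem_idealOfCofinals _ _) a ha⟩
  · obtain ⟨r, hr, -, ha, hb⟩ := h3 a a b
    simp only [Equiv.ofBijective_apply]
    rw [hF r hr a ha, hF r hr b hb]
    exact r.2.2.1.E a ha b hb
  · obtain ⟨r, hr, -, ha, hb⟩ := h3 a a b
    simp only [Equiv.ofBijective_apply]
    rw [hF r hr a ha, hF r hr b hb]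
    exact r.2.2.1.J a ha b hb
  · obtain ⟨r, hr, hx, ha, hb⟩ := h3 x a b
    simp only [Equiv.ofBijective_apply]
    rw [hF r hr a ha, hF r hr b hb, hF r hr x hx]
    exact r.2.2.1.R x hx a ha b hb

theorem Gen.hom [Nonempty V] (hM : Gen M) {B : Str V} {W : Finset V} {j1 j2 : V → ℕ}
    (i1 : Iso B M j1 W) (i2 : Iso B M j2 W) (c1 : Closed M (W.image j1))
    (c2 : Closed M (W.image j2)) : ∃ σ : ℕ ≃ ℕ, IsAut M σ ∧ ∀ v ∈ W, σ (j1 v) = j2 v := by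
  obtain ⟨g, hg⟩ := i1.exists_inv
  have i3 : Iso M M (j2 ∘ g) (W.image j1) := (i1.inv hg).comp i2 fun a ha => by
    obtain ⟨v, hv, rfl⟩ := mem_image.1 ha
    rwa [hg v hv]
  have e : (W.image j1).image (j2 ∘ g) = W.image j2 := by
    rw [image_image]
    exact image_congr fun v hv => by simp [hg v hv]
  obtain ⟨σ, h1, h2⟩ := hM.hom0 c1 i3 (e ▸ c2)
  exact ⟨σ, h1, fun v hv => by rw [h2 _ (mem_image_of_mem j1 hv), Function.comp_apply, hg v hv]⟩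

/-- finitely many orbits on tuples -/
theorem Gen.orbits (hM : Gen M) (ι : Type) [Finite ι] :
    ∃ (F : Type) (_ : Finite F) (inv : (ι → ℕ) → F),
      ∀ x y : ι → ℕ, inv x = inv y → ∃ σ : ℕ ≃ ℕ, IsAut M σ ∧ ∀ i, σ (x i) = y i := by
  classical
  have := Fintype.ofFinite ι
  let K := 2 ^ (4 * Fintype.card ι)
  have key : ∀ x : ι → ℕ, ∃ (W : Finset (Fin K)) (j : Fin K → ℕ) (pos : ι → Fin K),
      (∀ a ∈ W, ∀ b ∈ W, j a = j b → a = b) ∧ Closed M (W.image j) ∧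
        ∀ i, pos i ∈ W ∧ j (pos i) = x i := by
    intro x
    obtain ⟨Y, y1, y2, y3⟩ := hM.exists_closure (univ.image x)
    have c1 := y3 _ Subset.rfl
    have c2 := δ_le M (univ.image x)
    have c3 : (univ.image x).card ≤ Fintype.card ι := card_image_le
    have c4 : Y.card ≤ K := ((hM.good Y).ctl Y Subset.rfl).2.trans
      (Nat.pow_le_pow_right (by norm_num) (by omega))
    let j : Fin K → ℕ := fun k => if hk : k.1 < Y.card then (Y.equivFin.symm ⟨k.1, hk⟩ : ℕ) else 0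
    have hx : ∀ i, x i ∈ Y := fun i => y1 (mem_image_of_mem x (mem_univ i))
    refine ⟨univ.filter fun k => k.1 < Y.card, j, fun i => Fin.castLE c4 (Y.equivFin ⟨x i, hx i⟩),
      ?_, ?_, fun i => ⟨by simp, by simp [j]⟩⟩
    · intro a ha b hb e
      have ha' := (mem_filter.1 ha).2
      have hb' := (mem_filter.1 hb).2
      simp only [j, ha', hb', dif_pos] at e
      have := Y.equivFin.symm.injective (Subtype.ext e)
      exact Fin.ext (by simpa using this)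
    · convert y2 using 1
      ext n
      simp only [mem_image, mem_filter, mem_univ, true_and]
      constructor
      · rintro ⟨k, hk, rfl⟩
        simp only [j, hk, dif_pos]
        exact (Y.equivFin.symm ⟨k.1, hk⟩).2
      · intro hn
        exact ⟨Fin.castLE c4 (Y.equivFin ⟨n, hn⟩), by simp, by simp [j]⟩
  choose W j pos h1 h2 h3 using key
  refine ⟨Finset (Fin K) × (ι → Fin K) × (Fin K → Fin K → Prop) × (Fin K → Fin K → Prop) ×
    (Fin K → Fin K → Fin K → Prop), inferInstance, fun x => (W x, pos x,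
      fun a b => M.E (j x a) (j x b), fun a b => M.J (j x a) (j x b),
      fun c a b => M.R (j x c) (j x a) (j x b)), fun x y e => ?_⟩
  simp only [Prod.mk.injEq] at e
  obtain ⟨e1, e2, e3, e4, e5⟩ := e
  let B : Str (Fin K) := ⟨fun a b => M.E (j x a) (j x b), fun a b => M.J (j x a) (j x b),
      fun c a b => M.R (j x c) (j x a) (j x b)⟩
  have i1 : Iso B M (j x) (W x) :=
    ⟨h1 x, fun _ _ _ _ => Iff.rfl, fun _ _ _ _ => Iff.rfl, fun _ _ _ _ _ _ => Iff.rfl⟩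
  have i2 : Iso B M (j y) (W x) :=
    ⟨e1 ▸ h1 y, fun a _ b _ => (iff_of_eq (congrFun (congrFun e3 a) b)).symm,
      fun a _ b _ => (iff_of_eq (congrFun (congrFun e4 a) b)).symm,
      fun c _ a _ b _ => (iff_of_eq (congrFun (congrFun (congrFun e5 c) a) b)).symm⟩
  have : Nonempty (Fin K) := ⟨⟨0, by positivity⟩⟩
  obtain ⟨σ, s1, s2⟩ := hM.hom i1 i2 (h2 x) (e1 ▸ h2 y)
  refine ⟨σ, s1, fun i => ?_⟩
  rw [← (h3 x i).2, s2 _ (h3 x i).1, e2, (h3 y i).2]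

end Pool.Agent.H731Z.Ex.Sp
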