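import Pool.Agent.H731Z.Ex.Chain

/-! Stars in the generic structure. -/

set_option linter.unusedSectionVars false

namespace Pool.Agent.H731Z.Ex.Sp

open Finset

variable {V V' : Type} [DecidableEq V] [DecidableEq V']

def star (V : Type) : Str (Option V) where
  E u v := (u = none ∧ v ≠ none) ∨ (u ≠ none ∧ v = none)
  J u v := u ≠ none ∧ v ≠ none ∧ u ≠ v
  R x u v := (v = none ∧ u ≠ none ∧ u ≠ x) ∨ (u = none ∧ v = x ∧ v ≠ none)

lemma star_δ {X : Finset (Option V)} (hX : none ∈ X) : (star V).δ X = 2 * X.card + 2 := by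
  have e : (star V).edges X = ({none} ×ˢ X.erase none) ∪ (X.erase none ×ˢ {none}) := by
    ext ⟨u, v⟩
    simp only [mem_edges, star, mem_union, mem_product, mem_singleton, mem_erase]
    constructor
    · rintro ⟨h1, h2, h3 | h3⟩
      · exact Or.inl ⟨h3.1, h3.2, h2⟩
      · exact Or.inr ⟨⟨h3.1, h1⟩, h3.2⟩
    · rintro (⟨rfl, h2, h3⟩ | ⟨⟨h1, h2⟩, rfl⟩)
      · exact ⟨hX, h3, Or.inl ⟨rfl, h2⟩⟩
      · exact ⟨h2, hX, Or.inr ⟨h1, rfl⟩⟩
  have d : Disjoint (({none} : Finset (Option V)) ×ˢ X.erase none) (X.erase none ×ˢ {none}) := by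
    rw [disjoint_left]
    rintro ⟨u, v⟩ h1 h2
    simp only [mem_product, mem_singleton, mem_erase] at h1 h2
    exact h2.1.1 h1.1
  have c := card_erase_add_one hX
  unfold Str.δ
  rw [e, card_union_of_disjoint d, card_product, card_product, card_singleton]
  omega

lemma star_δ' {X : Finset (Option V)} (hX : none ∉ X) : (star V).δ X = 4 * X.card := by
  have e : (star V).edges X = ∅ := by
    ext ⟨u, v⟩
    simp only [mem_edges, star, notMem_empty, iff_false]
    rintro ⟨h1, h2, h3 | h3⟩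
    · exact hX (h3.1 ▸ h1)
    · exact hX (h3.2 ▸ h2)
  simp [Str.δ, e]

lemma star_good (W : Finset (Option V)) : Good (star V) W := by
  refine ⟨?_, ?_, ?_⟩
  · intro x _ a _ b _ h
    simp only [star] at h ⊢
    rcases h with ⟨rfl, h⟩ | ⟨h, rfl⟩
    · by_cases e : b = x <;> simp [e, h]
      simpa [e] using h
    · by_cases e : a = x <;> simp [e, h]
      simpa [e] using h
  · intro x _ a _ f hf _ hJ hR
    have h1 : ∀ i, f i = x := by
      intro i
      obtain ⟨j, hj⟩ := exists_ne i
      have := (hJ i j hj.symm).1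
      rcases hR i with h | h
      · exact absurd h.1 this
      · exact h.2.1
    exact absurd (hf ((h1 0).trans (h1 1).symm)) (by decide)
  · intro X _
    have h : 2 * (X.card : ℤ) ≤ (star V).δ X := by
      by_cases hX : none ∈ X
      · rw [star_δ hX]; omega
      · rw [star_δ' hX]; omega
    refine ⟨by omega, ?_⟩
    exact le_trans (by omega) (Nat.lt_two_pow_self (n := ((star V).δ X).toNat)).le

lemma star_cl {A : Finset (Option V)} (hA : none ∈ A) (W : Finset (Option V)) :
    Cl (star V) A W := by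
  intro Y h1 _ h3
  rw [star_δ hA, star_δ (h1 hA)]
  have := card_lt_card (h1.ssubset_of_ne h3.symm)
  omega

lemma star_map {s : V → V'} (hs : Function.Injective s) (W : Finset (Option V)) :
    Iso (star V) (star V') (Option.map s) W := by
  have h := Option.map_injective hs
  refine ⟨fun a _ b _ e => h e, fun a _ b _ => ?_, fun a _ b _ => ?_, fun x _ a _ b _ => ?_⟩
  · simp [star]
  · simp [star, h.eq_iff]
  · simp [star, h.eq_iff]

def flip1 : Option Unit → Option Unit
  | none => some ()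
  | some _ => none

lemma star_flip : Iso (star Unit) (star Unit) flip1 univ := by
  refine ⟨?_, ?_, ?_, ?_⟩
  · rintro (_ | _) _ (_ | _) _ <;> simp [flip1]
  · rintro (_ | _) _ (_ | _) _ <;> simp [flip1, star]
  · rintro (_ | _) _ (_ | _) _ <;> simp [flip1, star]
  · rintro (_ | _) _ (_ | _) _ (_ | _) _ <;> simp [flip1, star]

variable {M : Str ℕ}

def Wn (n : ℕ) : Finset (Option ℕ) := insert none ((range n).image some)

lemma Wn_mono {m n : ℕ} (h : m ≤ n) : Wn m ⊆ Wn n :=
  insert_subset_insert _ (image_subset_image (range_mono h))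

lemma none_mem_Wn (n : ℕ) : none ∈ Wn n := mem_insert_self _ _

lemma exists_Wn (W : Finset (Option ℕ)) : ∃ n, W ⊆ Wn n := by
  refine ⟨W.sup (fun v => v.getD 0) + 1, ?_⟩
  rintro (_ | i) hv
  · exact none_mem_Wn _
  · have := le_sup (f := fun v : Option ℕ => v.getD 0) hv
    simp only [Option.getD_some] at this
    exact mem_insert_of_mem (mem_image_of_mem _ (mem_range.2 (by omega)))

theorem Gen.exists_star (hM : Gen M) : ∃ j : Option ℕ → ℕ, ∀ W : Finset (Option ℕ), none ∈ W →
    Iso (star ℕ) M j W ∧ Closed M (W.image j) := by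
  let T : ℕ → Type := fun n => {j : Option ℕ → ℕ // Iso (star ℕ) M j (Wn n) ∧ Closed M ((Wn n).image j)}
  have h0 : Nonempty (T 0) := by
    obtain ⟨j, j1, -, j3⟩ := hM.ext (B := star ℕ) (W := Wn 0) (A := ∅) (g := fun _ => 0)
      (empty_subset _) (star_good _) (star_good _).cl_empty ⟨by simp, by simp, by simp, by simp⟩
      (by
        rw [image_empty]
        exact fun Y h1 h2 => (hM.good Y).cl_empty Y h1 Subset.rfl h2)
    exact ⟨⟨j, j1, j3⟩⟩
  have hs : ∀ n (t : T n), ∃ t' : T (n + 1), ∀ v ∈ Wn n, t'.1 v = t.1 v := by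
    intro n t
    obtain ⟨j, j1, j2, j3⟩ := hM.ext (Wn_mono (Nat.le_succ n)) (star_good _)
      (star_cl (none_mem_Wn n) _) t.2.1 t.2.2
    exact ⟨⟨j, j1, j3⟩, j2⟩
  choose nx hnx using hs
  let t : ∀ n, T n := fun n => Nat.rec (motive := T) h0.some nx n
  have ht : ∀ m n, m ≤ n → ∀ v ∈ Wn m, (t n).1 v = (t m).1 v := by
    intro m n h v hv
    induction n, h using Nat.le_induction with
    | base => rfl
    | succ n h ih => exact (hnx n (t n) v (Wn_mono h hv)).trans ih
  let j : Option ℕ → ℕ := fun v => (t (v.getD 0 + 1)).1 v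
  have hj : ∀ n, ∀ v ∈ Wn n, j v = (t n).1 v := by
    intro n v hv
    have h1 : v ∈ Wn (v.getD 0 + 1) := by
      rcases v with _ | i
      · exact none_mem_Wn _
      · exact mem_insert_of_mem (mem_image_of_mem _ (mem_range.2 (by simp)))
    exact (ht _ _ (le_max_left _ n) v h1).symm.trans (ht _ _ (le_max_right _ n) v hv)
  refine ⟨j, fun W hW => ?_⟩
  obtain ⟨n, hn⟩ := exists_Wn W
  have i1 : Iso (star ℕ) M j (Wn n) := (t n).2.1.congr (hj n)
  have c1 : Closed M ((Wn n).image j) := by
    rw [image_congr (g := (t n).1) fun v hv => hj n v hv]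
    exact (t n).2.2
  exact ⟨i1.mono hn, Closed.of_cl (i1.cl hn (star_cl hW _)) (image_subset_image hn) c1⟩

/-- an indiscernible star which is not picked under any point -/
def IsStar (M : Str ℕ) (a : ℕ) (b : ℕ → ℕ) : Prop :=
  (∀ (n : ℕ) (s t : Fin n → ℕ), StrictMono s → StrictMono t →
    ∃ σ : ℕ ≃ ℕ, IsAut M σ ∧ σ a = a ∧ ∀ i, σ (b (s i)) = b (t i)) ∧
  ∀ x, ¬ ∀ i ∈ range 5, M.R x a (b i)

lemma IsAut.symm {σ : ℕ ≃ ℕ} (h : IsAut M σ) : IsAut M σ.symm :=
  ⟨fun a b => by rw [← h.E]; simp, fun a b => by rw [← h.J]; simp,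
    fun x a b => by rw [← h.R]; simp⟩

lemma IsAut.trans {σ π : ℕ ≃ ℕ} (h : IsAut M σ) (h' : IsAut M π) : IsAut M (σ.trans π) :=
  ⟨fun a b => (h'.E _ _).trans (h.E a b), fun a b => (h'.J _ _).trans (h.J a b),
    fun x a b => (h'.R _ _ _).trans (h.R x a b)⟩

lemma IsStar.map {a : ℕ} {b : ℕ → ℕ} (h : IsStar M a b) {π : ℕ ≃ ℕ} (hπ : IsAut M π) :
    IsStar M (π a) (π ∘ b) := by
  refine ⟨fun n s t hs ht => ?_, fun x hx => h.2 (π.symm x) fun i hi => ?_⟩
  · obtain ⟨σ, s1, s2, s3⟩ := h.1 n s t hs ht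
    exact ⟨(π.symm.trans σ).trans π, (hπ.symm.trans s1).trans hπ, by simp [s2],
      fun i => by simp [s3]⟩
  · rw [← hπ.R]
    simpa using hx i hi

theorem Gen.two_stars (hM : Gen M) : ∃ (a : ℕ) (b b' : ℕ → ℕ), IsStar M a b ∧ IsStar M (b 0) b' ∧
    b' 0 = a ∧ ∀ x, M.R x a (b 0) ∨ M.R x (b 0) a := by
  obtain ⟨j, hj⟩ := hM.exists_star
  have key : ∀ {V : Type} [Fintype V] [DecidableEq V] (s : V → ℕ), Function.Injective s →
      Iso (star V) M (j ∘ Option.map s) univ ∧ Closed M (univ.image (j ∘ Option.map s)) := by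
    intro V _ _ s hs
    have hn : none ∈ (univ : Finset (Option V)).image (Option.map s) :=
      mem_image.2 ⟨none, mem_univ _, rfl⟩
    refine ⟨(star_map hs univ).comp (hj _ hn).1 fun a ha => mem_image_of_mem _ ha, ?_⟩
    rw [← image_image]
    exact (hj _ hn).2
  have st : IsStar M (j none) fun i => j (some i) := by
    refine ⟨fun n s t hs ht => ?_, fun x hx => ?_⟩
    · obtain ⟨σ, s1, s2⟩ := hM.hom (key s hs.injective).1 (key t ht.injective).1
        (key s hs.injective).2 (key t ht.injective).2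
      exact ⟨σ, s1, s2 none (mem_univ _), fun i => s2 (some i) (mem_univ _)⟩
    · have i1 := (key (fun i : Fin 5 => (i : ℕ)) Fin.val_injective).1
      refine (hM.good (insert x (insert (j none) (univ.image fun i : Fin 5 => j (some i))))).clq
        x (mem_insert_self _ _) (j none) (mem_insert_of_mem (mem_insert_self _ _))
        (fun i : Fin 5 => j (some i)) ?_ ?_ ?_ fun i => hx i (mem_range.2 i.2)
      · intro i k e
        exact Option.some.inj (i1.inj (some i) (mem_univ _) (some k) (mem_univ _) e)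
      · intro i
        exact mem_insert_of_mem (mem_insert_of_mem (mem_image_of_mem _ (mem_univ i)))
      · intro i k hik
        exact (i1.J (some i) (mem_univ _) (some k) (mem_univ _)).2 (by simpa [star] using hik)
  obtain ⟨i1, c1⟩ := key (fun _ : Unit => 0) fun _ _ _ => rfl
  have i2 := star_flip.comp i1 fun a _ => mem_univ _
  have e : univ.image ((j ∘ Option.map fun _ : Unit => 0) ∘ flip1) =
      univ.image (j ∘ Option.map fun _ : Unit => 0) := by
    have e0 : (univ : Finset (Option Unit)).image flip1 = univ := by decide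
    rw [← image_image, e0]
  obtain ⟨σ, s1, s2⟩ := hM.hom i1 i2 c1 (e ▸ c1)
  have s3 : σ (j none) = j (some 0) := s2 none (mem_univ _)
  have s4 : σ (j (some 0)) = j none := s2 (some ()) (mem_univ _)
  have s5 := st.map s1
  rw [s3] at s5
  refine ⟨j none, fun i => j (some i), σ ∘ fun i => j (some i), st, s5, s4, fun x => ?_⟩
  refine (hM.good {x, j none, j (some 0)}).ori x (by simp) _ (by simp) _ (by simp) ?_
  exact (i1.E none (mem_univ _) (some ()) (mem_univ _)).2 (by simp [star])

end Pool.Agent.H731Z.Ex.Sp
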